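import Pool.Agent.Q26.PD.AU

set_option autoImplicit false

/-! Arbitrary index sets and injective maps, random shifts: from the one shift estimate to products. -/

namespace Pool.Agent.Q26.IX
open Finset
open Pool.Agent.H373R2.T7
open Pool.Agent.W93.TD (tele_w)
open Pool.Agent.Y820.LF
open Pool.Agent.Q26.PD (OneZ HasZ)

/-- sums over an injective image of a finite set -/
lemma reindexJ (J : Finset ℕ) (M : ℕ) (φ : ℕ → ℕ) (hφ : ∀ n ∈ J, φ n ∈ Icc 1 M)
    (hinj : Set.InjOn φ (J : Set ℕ)) (G : ℕ → ℝ) (K : ℝ) (hK : 0 < K) (hG : ∀ n ∈ J, |G n| ≤ K) :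
    ∃ G' : ℕ → ℝ, (∀ m ∈ Icc 1 M, |G' m| ≤ K) ∧ ∀ F : ℕ → ℝ, ∑ m ∈ Icc 1 M, G' m * F m = ∑ n ∈ J, G n * F (φ n) := by
  classical
  refine ⟨fun m => ∑ n ∈ J.filter (fun n => φ n = m), G n, ?_, ?_⟩
  · intro m _
    rcases (J.filter (fun n => φ n = m)).eq_empty_or_nonempty with h | ⟨n0, hn0⟩
    · simp only [h, sum_empty, abs_zero]
      exact hK.le
    · have h1 : J.filter (fun n => φ n = m) = {n0} := by
        ext n
        rw [mem_singleton]
        constructor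
        · intro hn
          rw [mem_filter] at hn hn0
          exact hinj hn.1 hn0.1 (hn.2.trans hn0.2.symm)
        · rintro rfl
          exact hn0
      simp only [h1, sum_singleton]
      exact hG n0 (mem_filter.1 hn0).1
  · intro F
    have h1 : ∀ m ∈ Icc 1 M, (∑ n ∈ J.filter (fun n => φ n = m), G n) * F m =
        ∑ n ∈ J.filter (fun n => φ n = m), G n * F (φ n) := by
      intro m _
      rw [sum_mul]
      apply sum_congr rfl
      intro n hn
      rw [(mem_filter.1 hn).2]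
    rw [sum_congr rfl h1]
    exact sum_fiberwise_of_maps_to hφ _

/-- the one shift estimate for an arbitrary injective map -/
lemma one_idx (J : Finset ℕ) (M U B0 E Bc : ℕ) (κ : ℤ) (Ω : Finset ℕ) (p : ℕ → ℝ) (h : OneZ M U B0 E Bc κ Ω p) (σ : ℤ)
    (hσ : σ = 1 ∨ σ = -1) (a : ℕ → ℕ) (ha : ∀ j ∈ J, a j ∈ Icc 1 M) (hinj : Set.InjOn a (J : Set ℕ))
    (c : ℤ) (hc : |c| + (M + 1) ≤ (Bc : ℤ) * M)
    (z : ℕ) (hz1 : Real.log M ^ B0 ≤ z) (hz2 : (z : ℝ) ≤ Real.log M ^ E) (K : ℝ) (hK : 0 < K) (G : ℕ → ℝ)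
    (hG : ∀ n ∈ J, |G n| ≤ K) :
    ∑ v ∈ Ω, p v * |∑ j ∈ J, G j * (lamI (σ * (a j : ℤ) + (c + κ * (v : ℤ))) - lamzI z (σ * (a j : ℤ) + (c + κ * (v : ℤ))))| ≤
      K * (M / Real.log M ^ U) := by
  rcases hσ with hpos | hneg
  · obtain ⟨G', hG', hF⟩ := reindexJ J M a ha hinj G K hK hG
    have h1 := h c (by
      have : (0 : ℤ) ≤ (M : ℤ) + 1 := by positivity
      linarith) z hz1 hz2 K hK G' hG'
    refine le_trans (le_of_eq ?_) h1
    apply sum_congr rfl
    intro v _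
    congr 2
    rw [hF (fun m => lamI ((m : ℤ) + (c + κ * (v : ℤ))) - lamzI z ((m : ℤ) + (c + κ * (v : ℤ))))]
    apply sum_congr rfl
    intro n _
    rw [hpos, one_mul]
  · obtain ⟨G', hG', hF⟩ := reindexJ J M (fun j => M + 1 - a j) (fun j hj => by
      have := mem_Icc.1 (ha j hj)
      rw [mem_Icc]
      omega) (fun j hj j' hj' hjj => by
      have h1 := mem_Icc.1 (ha j hj)
      have h2 := mem_Icc.1 (ha j' hj')
      have h3 : M + 1 - a j = M + 1 - a j' := hjj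
      exact hinj hj hj' (by omega)) G K hK hG
    have h1 := h (c - (M + 1)) (by
      have := abs_sub c ((M : ℤ) + 1)
      rw [abs_of_nonneg (by positivity : (0 : ℤ) ≤ (M : ℤ) + 1)] at this
      linarith) z hz1 hz2 K hK G' hG'
    refine le_trans (le_of_eq ?_) h1
    apply sum_congr rfl
    intro v _
    congr 2
    rw [hF (fun m => lamI ((m : ℤ) + (c - (M + 1) + κ * (v : ℤ))) - lamzI z ((m : ℤ) + (c - (M + 1) + κ * (v : ℤ))))]
    apply sum_congr rfl
    intro j hj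
    have h2 := mem_Icc.1 (ha j hj)
    have h3 : (((M + 1 - a j : ℕ) : ℤ) + (c - (M + 1) + κ * (v : ℤ))) = σ * (a j : ℤ) + (c + κ * (v : ℤ)) := by
      rw [Nat.cast_sub (by omega), hneg]
      push_cast
      ring
    simp only [h3]

/-- the difference of the product and its model -/
noncomputable def DJ {s : ℕ} (J : Finset ℕ) (z : ℕ) (σ : Fin s → ℤ) (a : Fin s → ℕ → ℕ) (H : Fin s → ℤ) : ℝ :=
  |∑ j ∈ J, (∏ i, lamI (σ i * (a i j : ℤ) + H i) - ∏ i, lamzI z (σ i * (a i j : ℤ) + H i))|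

theorem ix_diff {s : ℕ} (hs : 1 ≤ s) (J : Finset ℕ) (M A z : ℕ) (U : ℕ) (κ c σ : Fin s → ℤ) (a : Fin s → ℕ → ℕ)
    (Ω : Fin s → Finset ℕ) (p : Fin s → ℕ → ℝ)
    (hp0 : ∀ i, ∀ v ∈ Ω i, 0 ≤ p i v) (hp1 : ∀ i, ∑ v ∈ Ω i, p i v = 1)
    (hA : ∀ i, ∀ v ∈ Ω i, ∀ j ∈ J, σ i * (a i j : ℤ) + (c i + κ i * (v : ℤ)) ≤ ((A * M : ℕ) : ℤ))
    (hone : ∀ i, ∀ K : ℝ, 0 < K → ∀ G : ℕ → ℝ, (∀ n ∈ J, |G n| ≤ K) →
      ∑ v ∈ Ω i, p i v * |∑ j ∈ J, G j * (lamI (σ i * (a i j : ℤ) + (c i + κ i * (v : ℤ))) -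
        lamzI z (σ i * (a i j : ℤ) + (c i + κ i * (v : ℤ))))| ≤ K * (M / Real.log M ^ (U + s + 2)))
    (hM : 1 ≤ M) (hA1 : 1 ≤ A) (hL1 : 1 ≤ Real.log M) (hLA : Real.log (A : ℝ) ≤ Real.log M)
    (hbig : (s : ℝ) * 2 ^ s ≤ Real.log M) (hV : (Vz z)⁻¹ ≤ Real.log M) :
    ∑ m ∈ Fintype.piFinset Ω, (∏ i, p i (m i)) * DJ J z σ a (fun i => c i + κ i * (m i : ℤ)) ≤ M / Real.log M ^ U := by
  classical
  obtain ⟨L, hL⟩ : ∃ L, L = Real.log (M : ℝ) := ⟨_, rfl⟩
  rw [← hL] at hL1 hLA hbig hV ⊢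
  simp only [← hL] at hone
  have hL0 : 0 < L := by linarith
  have hM0 : (0 : ℝ) < M := by exact_mod_cast hM
  have hA0 : (0 : ℝ) < A := by exact_mod_cast hA1
  have hX1 : 1 ≤ A * M := Nat.mul_pos (by omega) hM
  have hlogX : Real.log ((A * M : ℕ) : ℝ) ≤ 2 * L := by
    rw [Nat.cast_mul, Real.log_mul hA0.ne' hM0.ne', ← hL]
    linarith
  obtain ⟨N, hN⟩ : ∃ N, N = J.sup id := ⟨_, rfl⟩
  obtain ⟨J', hJ'⟩ : ∃ J', J' = J.image (fun j => j + 1) := ⟨_, rfl⟩
  have hJN : J' ⊆ Icc 1 (N + 1) := by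
    intro j hj
    rw [hJ', mem_image] at hj
    obtain ⟨j0, hj0, rfl⟩ := hj
    have h1 : j0 ≤ N := by rw [hN]; exact le_sup (f := id) hj0
    rw [mem_Icc]; omega
  -- transfer between J and the shifted set
  have hsum : ∀ F : ℕ → ℝ, ∑ n ∈ Icc 1 (N + 1), (if n ∈ J' then F (n - 1) else 0) = ∑ j ∈ J, F j := by
    intro F
    rw [← sum_filter, filter_mem_eq_inter, inter_eq_right.2 hJN, hJ', sum_image (fun x _ y _ hxy => by
      have : x + 1 = y + 1 := hxy
      omega)]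
    apply sum_congr rfl
    intro j _
    rw [Nat.add_sub_cancel]
  have key := tele_w (N + 1) Ω p hp0 hp1 (fun i n v => if n ∈ J' then lamI (σ i * (a i (n - 1) : ℤ) + (c i + κ i * (v : ℤ))) else 0)
    (fun i n v => if n ∈ J' then lamzI z (σ i * (a i (n - 1) : ℤ) + (c i + κ i * (v : ℤ))) else 0)
    (2 * L) ((M : ℝ) / L ^ (U + s + 2)) (by linarith) (by positivity) (by
      intro i n hn v hv
      split_ifs with hJn
      · rw [hJ', mem_image] at hJn
        obtain ⟨j0, hj0, rfl⟩ := hJn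
        rw [Nat.add_sub_cancel, abs_of_nonneg (lamI_nonneg _)]
        refine (lamI_le _ ((A * M : ℕ) : ℝ) (by exact_mod_cast hX1) ?_).trans hlogX
        exact_mod_cast hA i v hv j0 hj0
      · rw [abs_zero]; linarith) (by
      intro i n hn v hv
      split_ifs with hJn
      · rw [abs_of_nonneg (lamzI_nonneg _ _)]
        exact (lamzI_le z _).trans (by linarith)
      · rw [abs_zero]; linarith) (by
      intro i K hK G hG
      refine le_trans (le_of_eq ?_) (hone i K hK (fun j => G (j + 1)) (fun j hj => hG (j + 1) (hJN (by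
        rw [hJ']; exact mem_image_of_mem _ hj))))
      apply sum_congr rfl
      intro v _
      congr 2
      rw [← hsum]
      apply sum_congr rfl
      intro n hn
      have hn1 := (mem_Icc.1 hn).1
      split_ifs
      · rw [Nat.sub_add_cancel hn1]
      · rw [sub_zero, mul_zero])
    univ 1 one_pos (fun _ _ => 1) (by
      intro n hn m _
      norm_num) (by
      intro n m v i _; rfl)
  rw [card_univ, Fintype.card_fin] at key
  refine le_trans (le_of_eq ?_) (key.trans ?_)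
  · apply sum_congr rfl
    intro m _
    unfold DJ
    congr 2
    rw [← hsum]
    apply sum_congr rfl
    intro n hn
    split_ifs with hJn
    · rw [one_mul]
    · rw [one_mul]
      have hne : (univ : Finset (Fin s)).Nonempty := ⟨⟨0, by omega⟩, mem_univ _⟩
      obtain ⟨i0, hi0⟩ := hne
      rw [prod_eq_zero hi0 rfl, sub_zero]
  calc (s : ℝ) * (1 * (2 * L) ^ s * (M / L ^ (U + s + 2))) = ((s : ℝ) * 2 ^ s) * (M / L ^ U * (L ^ s / L ^ (s + 2))) := by
        rw [mul_pow, show U + s + 2 = U + (s + 2) by ring, pow_add L U]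
        field_simp
    _ ≤ L * (M / L ^ U * (L ^ s / L ^ (s + 2))) := mul_le_mul_of_nonneg_right hbig (by positivity)
    _ = (M / L ^ U) * (1 / L) := by
        rw [show s + 2 = (s + 1) + 1 by ring, pow_succ L (s + 1), pow_succ L s]
        field_simp
    _ ≤ (M / L ^ U) * 1 := by
        apply mul_le_mul_of_nonneg_left _ (by positivity)
        rw [div_le_one hL0]
        exact hL1
    _ = M / L ^ U := mul_one _

end Pool.Agent.Q26.IX
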