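import Pool.Agent.Q26.IX.A

set_option autoImplicit false

/-! Arbitrary index sets and injective maps: shifts in families with the one shift estimate, with windows. -/

namespace Pool.Agent.Q26.IX
open Finset
open Pool.Agent.H373R2.T7
open Pool.Agent.Y820.LF
open Pool.Agent.Q26.PD (OneZ HasZ abs_le_of)

lemma DJ_nonneg {s : ℕ} (J : Finset ℕ) (z : ℕ) (σ : Fin s → ℤ) (a : Fin s → ℕ → ℕ) (H : Fin s → ℤ) : 0 ≤ DJ J z σ a H :=
  abs_nonneg _

open Classical in
theorem ix_fam (s : ℕ) (hs : 1 ≤ s) (κ : Fin s → ℤ) (Bv : Fin s → ℕ)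
    (𝒮 : Fin s → ℕ → Finset ℕ → Prop) (h𝒮 : ∀ i, HasZ (κ i) (Bv i) (𝒮 i)) (B R A U : ℕ) :
    ∃ B0 : ℕ, ∀ E : ℕ, ∃ X₀ : ℕ, ∀ X, X₀ ≤ X → ∀ z : ℕ, Real.log X ^ B0 ≤ z → (z : ℝ) ≤ Real.log X ^ E →
      ∀ S : Fin s → Finset ℕ, (∀ i, 𝒮 i X (S i)) → ∀ c : Fin s → ℤ, (∀ i, |c i| ≤ (B : ℤ) * X) →
      ∀ (J : Finset ℕ) (σ : Fin s → ℤ) (a : Fin s → ℕ → ℕ), (∀ i, σ i = 1 ∨ σ i = -1) →
      (∀ i, ∀ j ∈ J, 1 ≤ a i j ∧ a i j ≤ X) → (∀ i, Set.InjOn (a i) (J : Set ℕ)) →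
      (((Fintype.piFinset S).filter fun v => ∃ t : Fin s → ℤ, (∀ i, ((|t i| : ℤ) : ℝ) ≤ Real.log X ^ R) ∧
         X / Real.log X ^ A < DJ J z σ a (fun i => c i + κ i * (v i : ℤ) + t i)).card : ℝ) ≤
      ((Fintype.piFinset S).card : ℝ) / Real.log X ^ U := by
  obtain ⟨B1, hB1⟩ : ∃ B1, B1 = ∑ i, (B + (κ i).natAbs * Bv i) := ⟨_, rfl⟩
  have hB1i : ∀ i, B + (κ i).natAbs * Bv i ≤ B1 := fun i => by
    rw [hB1]; exact single_le_sum (f := fun i => B + (κ i).natAbs * Bv i) (fun _ _ => Nat.zero_le _) (mem_univ i)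
  obtain ⟨U', hU'⟩ : ∃ U', U' = U + A + 1 + (R + 1) * s := ⟨_, rfl⟩
  choose C hC0 hC using h𝒮
  choose B0 h0 using fun i => hC i 1 (B + 3) (U' + s + 2) le_rfl
  obtain ⟨Bt, hBt⟩ : ∃ Bt, Bt = ∑ i, B0 i := ⟨_, rfl⟩
  have hBi : ∀ i, B0 i ≤ Bt := fun i => by rw [hBt]; exact single_le_sum (fun _ _ => Nat.zero_le _) (mem_univ i)
  refine ⟨Bt, fun E => ?_⟩
  choose N1 h1 using fun i => h0 i E
  obtain ⟨Nt, hNt⟩ : ∃ Nt, Nt = ∑ i, N1 i := ⟨_, rfl⟩
  have hNi : ∀ i, N1 i ≤ Nt := fun i => by rw [hNt]; exact single_le_sum (fun _ _ => Nat.zero_le _) (mem_univ i)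
  obtain ⟨N3, h3⟩ := Vz_inv_small E
  obtain ⟨n2, hn2⟩ := exists_nat_ge (Real.exp (∏ i, C i))
  obtain ⟨n4, hn4⟩ := exists_nat_ge (Real.exp ((s : ℝ) * 2 ^ s))
  obtain ⟨n5, hn5⟩ : ∃ n5 : ℕ, ∀ n : ℕ, n5 ≤ n → Real.log n ^ R ≤ (n : ℝ) := by
    have h := (Real.isLittleO_pow_log_id_atTop (n := R)).bound (show (0 : ℝ) < 1 by norm_num)
    have h' := tendsto_natCast_atTop_atTop.eventually h
    obtain ⟨n5, h5⟩ := Filter.eventually_atTop.1 h'
    refine ⟨n5 + 1, fun n hn => ?_⟩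
    have := h5 n (by omega)
    rw [one_mul, Real.norm_of_nonneg (pow_nonneg (Real.log_natCast_nonneg n) _), id, Real.norm_of_nonneg (Nat.cast_nonneg n)] at this
    exact this
  refine ⟨Nt + N3 + n2 + n4 + n5 + (B1 + 3) + 21, fun X hX z hz1 hz2 S hS c hc J σ a hσ ha hinj => ?_⟩
  have hX0 : (0 : ℝ) < X := by exact_mod_cast (by omega : 0 < X)
  obtain ⟨L, hL⟩ : ∃ L, L = Real.log (X : ℝ) := ⟨_, rfl⟩
  have hlog3 : 3 ≤ L := by
    rw [hL, Real.le_log_iff_exp_le hX0]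
    have h21 : (21 : ℝ) ≤ X := by exact_mod_cast (by omega : 21 ≤ X)
    have h2 : Real.exp 3 ≤ 21 := by
      have h4 := Real.exp_one_lt_d9
      have h6 : Real.exp 3 = Real.exp 1 ^ 3 := by rw [← Real.exp_nat_mul]; norm_num
      rw [h6]
      calc Real.exp 1 ^ 3 ≤ (2.7182818286 : ℝ) ^ 3 := pow_le_pow_left₀ (Real.exp_pos _).le h4.le 3
        _ ≤ 21 := by norm_num
    linarith
  have hL0 : 0 < L := by linarith
  have hCl : ∏ i, C i ≤ L := by
    rw [hL, Real.le_log_iff_exp_le hX0]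
    refine hn2.trans ?_
    exact_mod_cast (by omega : n2 ≤ X)
  choose Ω p hp0 hp1 hpθ hpA hmem hone using fun i => h1 i X (by have := hNi i; omega) (S i) (hS i)
  simp only [one_mul] at hone
  have hCp : 0 ≤ ∏ i, C i := prod_nonneg fun i _ => hC0 i
  have hVz : (Vz z)⁻¹ ≤ L := by
    rw [hL]
    refine h3 X (by omega) z ?_ hz2
    by_contra hz0
    have : z = 0 := by omega
    subst this
    rw [← hL] at hz1
    have : 0 < L ^ Bt := by positivity
    simp only [Nat.cast_zero] at hz1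
    linarith
  -- the windows
  obtain ⟨r, hr⟩ : ∃ r : ℕ, r = ⌊L ^ R⌋₊ := ⟨_, rfl⟩
  have hr1 : (r : ℝ) ≤ L ^ R := by rw [hr]; exact Nat.floor_le (by positivity)
  have hrX : (r : ℤ) ≤ X := by
    have : (r : ℝ) ≤ X := hr1.trans (by rw [hL]; exact hn5 X (by omega))
    exact_mod_cast this
  obtain ⟨T, hT⟩ : ∃ T : Finset (Fin s → ℤ), T = Fintype.piFinset fun _ : Fin s => Icc (-(r : ℤ)) (r : ℤ) := ⟨_, rfl⟩
  have hTc : (T.card : ℝ) ≤ L ^ ((R + 1) * s) := by
    rw [hT, Fintype.card_piFinset, prod_const, card_univ, Fintype.card_fin, Int.card_Icc]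
    have e1 : ((r : ℤ) + 1 - -(r : ℤ)).toNat = 2 * r + 1 := by omega
    rw [e1, pow_mul]
    push_cast
    apply pow_le_pow_left₀ (by positivity)
    have h5 : (1 : ℝ) ≤ L ^ R := one_le_pow₀ (by linarith)
    calc 2 * (r : ℝ) + 1 ≤ 2 * L ^ R + L ^ R := by linarith
      _ = L ^ R * 3 := by ring
      _ ≤ L ^ R * L := mul_le_mul_of_nonneg_left hlog3 (by positivity)
      _ = L ^ (R + 1) := by rw [pow_succ]
  have hmain : ∀ t ∈ T, ∑ m ∈ Fintype.piFinset Ω, (∏ i, p i (m i)) * DJ J z σ a (fun i => (c i + t i) + κ i * (m i : ℤ)) ≤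
      X / L ^ U' := by
    intro t ht
    rw [hT, Fintype.mem_piFinset] at ht
    have hti : ∀ i, |t i| ≤ X := fun i => by
      have := mem_Icc.1 (ht i)
      rw [abs_le]
      constructor <;> linarith [this.1, this.2]
    have hci : ∀ i, |c i + t i| ≤ ((B + 1 : ℕ) : ℤ) * X := fun i => by
      have := abs_add_le (c i) (t i)
      push_cast
      linarith [hc i, hti i]
    rw [hL]
    refine ix_diff hs J X (B1 + 3) z U' κ (fun i => c i + t i) σ a Ω p hp0 hp1 ?_ ?_ (by omega) (by omega) (by linarith) ?_ ?_ ?_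
    · intro i v hv j hj
      have h6 := abs_le_of (c i + t i) (κ i) X v (B + 1) (Bv i) (hci i) (hpA i v hv)
      have h7 := (abs_le.1 h6).2
      have h8 : σ i * (a i j : ℤ) ≤ X := by
        have h9 : (a i j : ℤ) ≤ X := by exact_mod_cast (ha i j hj).2
        have h10 : (0 : ℤ) ≤ (a i j : ℤ) := by positivity
        rcases hσ i with h | h <;> rw [h] <;> linarith
      have h11 : ((B + 1 + (κ i).natAbs * Bv i : ℕ) : ℤ) * X ≤ ((B1 + 1 : ℕ) : ℤ) * X := by
        apply mul_le_mul_of_nonneg_right _ (by positivity)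
        have := hB1i i
        exact_mod_cast (by omega : B + 1 + (κ i).natAbs * Bv i ≤ B1 + 1)
      push_cast at h7 h11 ⊢
      have h12 : (0 : ℤ) ≤ (X : ℤ) := by positivity
      linarith
    · intro i K hK G hG
      refine one_idx J X (U' + s + 2) (B0 i) E (B + 3) (κ i) (Ω i) (p i) (hone i) (σ i) (hσ i) (a i)
        (fun j hj => mem_Icc.2 (ha i j hj)) (hinj i) (c i + t i) ?_ z ?_ hz2 K hK G hG
      · have h12 := hci i
        push_cast at h12 ⊢
        have h13 : (1 : ℤ) ≤ X := by exact_mod_cast (by omega : 1 ≤ X)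
        linarith
      · refine (pow_le_pow_right₀ ?_ (hBi i)).trans hz1
        rw [← hL]; linarith
    · have h14 : ((B1 + 3 : ℕ) : ℝ) ≤ X := by exact_mod_cast (by omega : B1 + 3 ≤ X)
      exact Real.log_le_log (by exact_mod_cast (by omega : 0 < B1 + 3)) h14
    · rw [Real.le_log_iff_exp_le hX0]
      refine hn4.trans ?_
      exact_mod_cast (by omega : n4 ≤ X)
    · rw [← hL]; exact hVz
  obtain ⟨F, hF⟩ : ∃ F, F = Fintype.piFinset S := ⟨_, rfl⟩
  have hFc : (F.card : ℝ) = ∏ i, ((S i).card : ℝ) := by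
    rw [hF, Fintype.card_piFinset, Nat.cast_prod]
  rw [← hF, ← hL]
  have hpt : ∀ v ∈ F, v ∈ Fintype.piFinset Ω ∧ 1 ≤ (∏ i, C i) * (F.card : ℝ) * ∏ i, p i (v i) := by
    intro v hv
    rw [hF, Fintype.mem_piFinset] at hv
    have hv' : ∀ i, v i ∈ Ω i ∧ 1 ≤ C i * ((S i).card : ℝ) * p i (v i) := fun i => hmem i (v i) (hv i)
    refine ⟨Fintype.mem_piFinset.2 fun i => (hv' i).1, ?_⟩
    rw [hFc, ← prod_mul_distrib, ← prod_mul_distrib]
    have h7 : ∏ _i : Fin s, (1 : ℝ) ≤ ∏ i, (C i * ((S i).card : ℝ) * p i (v i)) :=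
      prod_le_prod (fun _ _ => by norm_num) (fun i _ => (hv' i).2)
    rwa [prod_const_one] at h7
  obtain ⟨bad, hbad⟩ : ∃ bad : (Fin s → ℕ) → Prop, bad = fun v => ∃ t : Fin s → ℤ, (∀ i, ((|t i| : ℤ) : ℝ) ≤ L ^ R) ∧
         X / L ^ A < DJ J z σ a (fun i => c i + κ i * (v i : ℤ) + t i) := ⟨_, rfl⟩
  obtain ⟨W, hW⟩ : ∃ W : (Fin s → ℕ) → ℝ, W = fun v => ∑ t ∈ T, DJ J z σ a (fun i => (c i + t i) + κ i * (v i : ℤ)) := ⟨_, rfl⟩
  have hW0 : ∀ v, 0 ≤ W v := fun v => by rw [hW]; exact sum_nonneg fun t _ => DJ_nonneg _ _ _ _ _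
  have hWbad : ∀ v, bad v → 1 ≤ (L ^ A / X) * W v := by
    intro v hv
    rw [hbad] at hv
    obtain ⟨t, ht1, ht2⟩ := hv
    have htT : t ∈ T := by
      rw [hT, Fintype.mem_piFinset]
      intro i
      have h8 : (|t i|).toNat ≤ r := by
        rw [hr]
        apply Nat.le_floor
        have h9 : (((|t i|).toNat : ℤ) : ℝ) = ((|t i| : ℤ) : ℝ) := by rw [Int.toNat_of_nonneg (abs_nonneg _)]
        have h10 : (((|t i|).toNat : ℕ) : ℝ) = ((|t i| : ℤ) : ℝ) := by rw [← h9]; norm_cast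
        rw [h10]; exact ht1 i
      have h11 : |t i| ≤ (r : ℤ) := by
        have := Int.toNat_of_nonneg (abs_nonneg (t i))
        omega
      rw [mem_Icc]
      exact abs_le.1 h11
    have h12 : DJ J z σ a (fun i => (c i + t i) + κ i * (v i : ℤ)) ≤ W v := by
      rw [hW]
      exact single_le_sum (f := fun t : Fin s → ℤ => DJ J z σ a (fun i => (c i + t i) + κ i * (v i : ℤ)))
        (fun t _ => DJ_nonneg _ _ _ _ _) htT
    have h13 : (fun i => (c i + t i) + κ i * (v i : ℤ)) = fun i => c i + κ i * (v i : ℤ) + t i := by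
      funext i; ring
    rw [h13] at h12
    have h14 : (X : ℝ) / L ^ A ≤ W v := ht2.le.trans h12
    rw [div_mul_eq_mul_div, le_div_iff₀ hX0, one_mul]
    rw [div_le_iff₀ (by positivity)] at h14
    linarith
  have hF0 : (0 : ℝ) ≤ F.card := Nat.cast_nonneg _
  have hpp : ∀ v ∈ Fintype.piFinset Ω, 0 ≤ ∏ i, p i (v i) := fun v hv =>
    prod_nonneg fun i _ => hp0 i _ (Fintype.mem_piFinset.1 hv i)
  have hcard : ((F.filter (fun v => bad v)).card : ℝ) ≤ (F.card : ℝ) / L ^ U := by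
    calc ((F.filter (fun v => bad v)).card : ℝ) = ∑ v ∈ F.filter (fun v => bad v), (1 : ℝ) := by
          rw [sum_const, nsmul_eq_mul, mul_one]
      _ ≤ ∑ v ∈ F.filter (fun v => bad v), ((∏ i, C i) * (F.card : ℝ) * (L ^ A / X)) * ((∏ i, p i (v i)) * W v) := by
          apply sum_le_sum
          intro v hv
          rw [mem_filter] at hv
          have e1 := (hpt v hv.1).2
          have e2 := hWbad v hv.2
          calc (1 : ℝ) = 1 * 1 := (one_mul 1).symm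
            _ ≤ ((∏ i, C i) * (F.card : ℝ) * ∏ i, p i (v i)) * ((L ^ A / X) * W v) :=
                mul_le_mul e1 e2 zero_le_one (by linarith)
            _ = _ := by ring
      _ ≤ ∑ v ∈ Fintype.piFinset Ω, ((∏ i, C i) * (F.card : ℝ) * (L ^ A / X)) * ((∏ i, p i (v i)) * W v) := by
          apply sum_le_sum_of_subset_of_nonneg
          · intro v hv
            exact (hpt v (mem_filter.1 hv).1).1
          · intro v hv _
            exact mul_nonneg (by positivity) (mul_nonneg (hpp v hv) (hW0 v))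
      _ = ((∏ i, C i) * (F.card : ℝ) * (L ^ A / X)) * ∑ t ∈ T, ∑ v ∈ Fintype.piFinset Ω, (∏ i, p i (v i)) *
            DJ J z σ a (fun i => (c i + t i) + κ i * (v i : ℤ)) := by
          rw [← mul_sum, sum_comm]
          congr 1
          apply sum_congr rfl
          intro v _
          rw [hW, mul_sum]
      _ ≤ ((∏ i, C i) * (F.card : ℝ) * (L ^ A / X)) * ∑ t ∈ T, (X : ℝ) / L ^ U' := by
          apply mul_le_mul_of_nonneg_left (sum_le_sum hmain) (by positivity)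
      _ = ((∏ i, C i) * (F.card : ℝ) * (L ^ A / X)) * ((T.card : ℝ) * (X / L ^ U')) := by
          rw [sum_const, nsmul_eq_mul]
      _ ≤ (L * (F.card : ℝ) * (L ^ A / X)) * (L ^ ((R + 1) * s) * (X / L ^ U')) := by
          apply mul_le_mul _ (mul_le_mul_of_nonneg_right hTc (by positivity)) (by positivity) (by positivity)
          exact mul_le_mul_of_nonneg_right (mul_le_mul_of_nonneg_right hCl hF0) (by positivity)
      _ = (F.card : ℝ) / L ^ U := by
          rw [hU', show U + A + 1 + (R + 1) * s = U + (A + (1 + (R + 1) * s)) by ring, pow_add L U, pow_add L A, pow_add L 1, pow_one]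
          field_simp
  rw [hbad] at hcard
  exact hcard

end Pool.Agent.Q26.IX
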