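import Pool.Agent.Q26.IX.B

set_option autoImplicit false

/-! From the weighted sum to the number of primes. -/

namespace Pool.Agent.Q26.IX
open Finset Filter Topology
open Pool.Agent.H373R2.T7
open Pool.Agent.Y820.LF

/-- proper prime powers are rare -/
theorem pp_card (N : ℕ) : ((Icc 1 N).filter (fun n => IsPrimePow n ∧ ¬ n.Prime)).card ≤
    Nat.sqrt N * Nat.log 2 N := by
  classical
  have h : (Icc 1 N).filter (fun n => IsPrimePow n ∧ ¬ n.Prime) ⊆
      ((Icc 1 (Nat.sqrt N)) ×ˢ (Icc 1 (Nat.log 2 N))).image (fun a => a.1 ^ a.2) := by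
    intro n hn
    rw [mem_filter, mem_Icc] at hn
    obtain ⟨⟨h1, h2⟩, hpp, hnp⟩ := hn
    obtain ⟨p, k, hp, hk, rfl⟩ := (isPrimePow_nat_iff n).1 hpp
    have hk2 : 2 ≤ k := by
      by_contra hcon
      have : k = 1 := by omega
      subst this
      rw [pow_one] at hnp
      exact hnp hp
    rw [mem_image]
    refine ⟨(p, k), ?_, rfl⟩
    rw [mem_product, mem_Icc, mem_Icc]
    refine ⟨⟨hp.one_le, ?_⟩, ⟨hk, ?_⟩⟩
    · rw [Nat.le_sqrt']
      exact (Nat.pow_le_pow_right hp.pos hk2).trans h2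
    · refine Nat.le_log_of_pow_le (by norm_num) ?_
      exact (Nat.pow_le_pow_left hp.two_le k).trans h2
  refine (card_le_card h).trans (card_image_le.trans ?_)
  rw [card_product, Nat.card_Icc, Nat.card_Icc]
  simp

/-- the integer `k` is a prime number -/
def IsP (k : ℤ) : Prop := ∃ q : ℕ, q.Prime ∧ (q : ℤ) = k

/-- the integer `k` is positive and has no prime factor up to `z` -/
def IsR (z : ℕ) (k : ℤ) : Prop := 1 ≤ k ∧ ∀ q : ℕ, q.Prime → q ≤ z → ¬ (q : ℤ) ∣ k

open Classical in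
/-- the number of the elements `j` of `J` for which all the numbers `σ i * a i j + h i` are prime -/
noncomputable def prm {s : ℕ} (J : Finset ℕ) (σ : Fin s → ℤ) (a : Fin s → ℕ → ℕ) (h : Fin s → ℤ) : ℕ :=
  (J.filter fun j => ∀ i, IsP (σ i * (a i j : ℤ) + h i)).card

open Classical in
/-- the number of the elements `j` of `J` for which all the numbers `σ i * a i j + h i` are positive without prime
factor up to `z` -/
noncomputable def rgh {s : ℕ} (J : Finset ℕ) (z : ℕ) (σ : Fin s → ℤ) (a : Fin s → ℕ → ℕ) (h : Fin s → ℤ) : ℕ :=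
  (J.filter fun j => ∀ i, IsR z (σ i * (a i j : ℤ) + h i)).card

lemma lamzI_eq (z : ℕ) (k : ℤ) [Decidable (IsR z k)] : lamzI z k = if IsR z k then (Vz z)⁻¹ else 0 := by
  unfold lamzI lamz
  by_cases h1 : 1 ≤ k
  · have hk : ((k.toNat : ℕ) : ℤ) = k := Int.toNat_of_nonneg (by omega)
    rw [if_pos h1]
    by_cases h2 : ∀ p ∈ pz z, ¬ p ∣ k.toNat
    · rw [if_pos h2, if_pos]
      refine ⟨h1, fun q hq hqz hd => h2 q (mem_pz.2 ⟨hqz, hq⟩) ?_⟩
      rw [← hk] at hd
      exact Int.natCast_dvd_natCast.1 hd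
    · rw [if_neg h2, if_neg]
      intro h3
      apply h2
      intro p hp hd
      refine h3.2 p (mem_pz.1 hp).2 (mem_pz.1 hp).1 ?_
      rw [← hk]
      exact Int.natCast_dvd_natCast.2 hd
  · rw [if_neg h1, if_neg (fun h => h1 h.1)]

lemma sum_model {s : ℕ} (J : Finset ℕ) (z : ℕ) (σ : Fin s → ℤ) (a : Fin s → ℕ → ℕ) (h : Fin s → ℤ) :
    ∑ j ∈ J, ∏ i, lamzI z (σ i * (a i j : ℤ) + h i) = (Vz z)⁻¹ ^ s * (rgh J z σ a h : ℝ) := by
  classical
  have h1 : ∀ j ∈ J, ∏ i, lamzI z (σ i * (a i j : ℤ) + h i) =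
      if ∀ i, IsR z (σ i * (a i j : ℤ) + h i) then (Vz z)⁻¹ ^ s else 0 := by
    intro j _
    simp only [lamzI_eq]
    by_cases hall : ∀ i, IsR z (σ i * (a i j : ℤ) + h i)
    · rw [if_pos hall]
      rw [prod_congr rfl (fun i _ => if_pos (hall i)), prod_const, card_univ, Fintype.card_fin]
    · rw [if_neg hall]
      push Not at hall
      obtain ⟨i, hi⟩ := hall
      exact prod_eq_zero (mem_univ i) (if_neg hi)
  rw [sum_congr rfl h1, ← sum_filter, sum_const, nsmul_eq_mul, mul_comm]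
  unfold rgh
  congr!

/-- the von Mangoldt function is at most `log Y` at the primes and prime powers up to `Y` -/
lemma lam_cases (Y : ℕ) (k : ℤ) (hk : k ≤ Y) :
    lamI k = 0 ∨ ((IsP k ∨ k.toNat ∈ (Icc 1 Y).filter (fun n => IsPrimePow n ∧ ¬ n.Prime)) ∧ 1 ≤ k ∧ lamI k ≤ Real.log Y) := by
  unfold lamI
  by_cases h1 : 1 ≤ k
  · rw [if_pos h1]
    have hk' : ((k.toNat : ℕ) : ℤ) = k := Int.toNat_of_nonneg (by omega)
    by_cases h2 : IsPrimePow k.toNat
    · right
      refine ⟨?_, h1, ?_⟩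
      · by_cases h3 : k.toNat.Prime
        · left
          exact ⟨k.toNat, h3, hk'⟩
        · right
          rw [mem_filter, mem_Icc]
          refine ⟨⟨by omega, by omega⟩, h2, h3⟩
      · refine ArithmeticFunction.vonMangoldt_le_log.trans ?_
        apply Real.log_le_log
        · exact_mod_cast (by omega : 0 < k.toNat)
        · exact_mod_cast (by omega : k.toNat ≤ Y)
    · left
      exact ArithmeticFunction.vonMangoldt_eq_zero_iff.2 h2
  · left
    rw [if_neg h1]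

/-- an injective map has few values in a small set -/
lemma few {J : Finset ℕ} (φ : ℕ → ℤ) (hφ : Set.InjOn φ (J : Set ℕ)) (T : Finset ℤ) :
    (J.filter fun j => φ j ∈ T).card ≤ T.card := by
  apply card_le_card_of_injOn φ
  · intro j hj
    exact (mem_filter.1 hj).2
  · intro j hj j' hj' h
    exact hφ (mem_filter.1 hj).1 (mem_filter.1 hj').1 h

lemma inj_form {J : Finset ℕ} (σ : ℤ) (hσ : σ = 1 ∨ σ = -1) (a : ℕ → ℕ) (ha : Set.InjOn a (J : Set ℕ)) (h : ℤ) :
    Set.InjOn (fun j => σ * (a j : ℤ) + h) (J : Set ℕ) := by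
  intro j hj j' hj' hjj
  apply ha hj hj'
  have h1 : σ * (a j : ℤ) + h = σ * (a j' : ℤ) + h := hjj
  rcases hσ with h2 | h2 <;> rw [h2] at h1 <;> omega

theorem lower {s : ℕ} (J : Finset ℕ) (Y : ℕ) (σ : Fin s → ℤ) (a : Fin s → ℕ → ℕ) (h : Fin s → ℤ)
    (hσ : ∀ i, σ i = 1 ∨ σ i = -1) (hinj : ∀ i, Set.InjOn (a i) (J : Set ℕ))
    (hv : ∀ i, ∀ j ∈ J, σ i * (a i j : ℤ) + h i ≤ (Y : ℤ)) :
    ∑ j ∈ J, ∏ i, lamI (σ i * (a i j : ℤ) + h i) ≤
      Real.log Y ^ s * ((prm J σ a h : ℝ) + s * (Nat.sqrt Y * Nat.log 2 Y : ℕ)) := by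
  classical
  have hL0 : 0 ≤ Real.log (Y : ℝ) := Real.log_natCast_nonneg Y
  obtain ⟨PP, hPP⟩ : ∃ PP, PP = (Icc 1 Y).filter (fun n => IsPrimePow n ∧ ¬ n.Prime) := ⟨_, rfl⟩
  obtain ⟨T, hT⟩ : ∃ T : Finset ℤ, T = PP.image (fun n : ℕ => (n : ℤ)) := ⟨_, rfl⟩
  have hTc : T.card ≤ Nat.sqrt Y * Nat.log 2 Y := by
    rw [hT]
    refine card_image_le.trans ?_
    rw [hPP]
    exact pp_card Y
  have hpt : ∀ j ∈ J, ∏ i, lamI (σ i * (a i j : ℤ) + h i) ≤
      Real.log Y ^ s * ((if ∀ i, IsP (σ i * (a i j : ℤ) + h i) then (1 : ℝ) else 0) +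
        ∑ i, (if σ i * (a i j : ℤ) + h i ∈ T then (1 : ℝ) else 0)) := by
    intro j hj
    have hs0 : (0 : ℝ) ≤ ∑ i, (if σ i * (a i j : ℤ) + h i ∈ T then (1 : ℝ) else 0) :=
      sum_nonneg fun i _ => by split_ifs <;> norm_num
    have hrhs : 0 ≤ Real.log Y ^ s * ((if ∀ i, IsP (σ i * (a i j : ℤ) + h i) then (1 : ℝ) else 0) +
        ∑ i, (if σ i * (a i j : ℤ) + h i ∈ T then (1 : ℝ) else 0)) := by
      apply mul_nonneg (by positivity)
      have : (0 : ℝ) ≤ (if ∀ i, IsP (σ i * (a i j : ℤ) + h i) then (1 : ℝ) else 0) := by split_ifs <;> norm_num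
      linarith
    by_cases hz : ∃ i, lamI (σ i * (a i j : ℤ) + h i) = 0
    · obtain ⟨i, hi⟩ := hz
      rw [prod_eq_zero (mem_univ i) hi]
      exact hrhs
    · push Not at hz
      have hall := fun i => (lam_cases Y _ (hv i j hj)).resolve_left (hz i)
      have h1 : ∏ i, lamI (σ i * (a i j : ℤ) + h i) ≤ Real.log Y ^ s := by
        calc ∏ i, lamI (σ i * (a i j : ℤ) + h i) ≤ ∏ _i : Fin s, Real.log Y :=
              prod_le_prod (fun i _ => lamI_nonneg _) (fun i _ => (hall i).2.2)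
          _ = Real.log Y ^ s := by rw [prod_const, card_univ, Fintype.card_fin]
      have h2 : (1 : ℝ) ≤ (if ∀ i, IsP (σ i * (a i j : ℤ) + h i) then (1 : ℝ) else 0) +
          ∑ i, (if σ i * (a i j : ℤ) + h i ∈ T then (1 : ℝ) else 0) := by
        by_cases h3 : ∀ i, IsP (σ i * (a i j : ℤ) + h i)
        · rw [if_pos h3]; linarith
        · rw [if_neg h3, zero_add]
          push Not at h3
          obtain ⟨i, hi⟩ := h3
          have h4 := (hall i).1.resolve_left hi
          have h5 : σ i * (a i j : ℤ) + h i ∈ T := by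
            rw [hT, mem_image]
            refine ⟨_, by rw [hPP]; exact h4, Int.toNat_of_nonneg (by linarith [(hall i).2.1])⟩
          calc (1 : ℝ) = if σ i * (a i j : ℤ) + h i ∈ T then (1 : ℝ) else 0 := by rw [if_pos h5]
            _ ≤ _ := single_le_sum (f := fun i => if σ i * (a i j : ℤ) + h i ∈ T then (1 : ℝ) else 0)
                (fun i _ => by split_ifs <;> norm_num) (mem_univ i)
      calc ∏ i, lamI (σ i * (a i j : ℤ) + h i) ≤ Real.log Y ^ s * 1 := by rw [mul_one]; exact h1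
        _ ≤ _ := mul_le_mul_of_nonneg_left h2 (by positivity)
  refine (sum_le_sum hpt).trans ?_
  rw [← mul_sum]
  apply mul_le_mul_of_nonneg_left _ (by positivity)
  rw [sum_add_distrib, ← sum_filter, sum_const, nsmul_eq_mul, mul_one, sum_comm]
  have h6 : ∀ i ∈ (univ : Finset (Fin s)), ∑ j ∈ J, (if σ i * (a i j : ℤ) + h i ∈ T then (1 : ℝ) else 0) ≤
      (Nat.sqrt Y * Nat.log 2 Y : ℕ) := by
    intro i _
    rw [← sum_filter, sum_const, nsmul_eq_mul, mul_one]
    exact_mod_cast (few _ (inj_form (σ i) (hσ i) (a i) (hinj i) (h i)) T).trans hTc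
  have h7 := sum_le_sum h6
  rw [sum_const, card_univ, Fintype.card_fin, nsmul_eq_mul] at h7
  refine add_le_add (le_of_eq ?_) h7
  unfold prm
  congr!

theorem upper {s : ℕ} (J : Finset ℕ) (w : ℕ) (hw : 1 ≤ w) (σ : Fin s → ℤ) (a : Fin s → ℕ → ℕ) (h : Fin s → ℤ)
    (hσ : ∀ i, σ i = 1 ∨ σ i = -1) (hinj : ∀ i, Set.InjOn (a i) (J : Set ℕ)) :
    Real.log w ^ s * ((prm J σ a h : ℝ) - s * w) ≤ ∑ j ∈ J, ∏ i, lamI (σ i * (a i j : ℤ) + h i) := by
  classical
  have hL0 : 0 ≤ Real.log (w : ℝ) := Real.log_natCast_nonneg w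
  obtain ⟨T, hT⟩ : ∃ T : Finset ℤ, T = Icc 1 (w : ℤ) := ⟨_, rfl⟩
  have hTc : T.card = w := by
    rw [hT, Int.card_Icc]; omega
  have hpt : ∀ j ∈ J, Real.log w ^ s * ((if ∀ i, IsP (σ i * (a i j : ℤ) + h i) then (1 : ℝ) else 0) -
        ∑ i, (if σ i * (a i j : ℤ) + h i ∈ T then (1 : ℝ) else 0)) ≤ ∏ i, lamI (σ i * (a i j : ℤ) + h i) := by
    intro j hj
    have hs0 : (0 : ℝ) ≤ ∑ i, (if σ i * (a i j : ℤ) + h i ∈ T then (1 : ℝ) else 0) :=
      sum_nonneg fun i _ => by split_ifs <;> norm_num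
    have hp0 : 0 ≤ ∏ i, lamI (σ i * (a i j : ℤ) + h i) := prod_nonneg fun i _ => lamI_nonneg _
    by_cases h3 : ∀ i, IsP (σ i * (a i j : ℤ) + h i)
    · by_cases h4 : ∃ i, σ i * (a i j : ℤ) + h i ∈ T
      · obtain ⟨i, hi⟩ := h4
        have h5 : (1 : ℝ) ≤ ∑ i, (if σ i * (a i j : ℤ) + h i ∈ T then (1 : ℝ) else 0) := by
          calc (1 : ℝ) = if σ i * (a i j : ℤ) + h i ∈ T then (1 : ℝ) else 0 := by rw [if_pos hi]
            _ ≤ _ := single_le_sum (f := fun i => if σ i * (a i j : ℤ) + h i ∈ T then (1 : ℝ) else 0)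
                (fun i _ => by split_ifs <;> norm_num) (mem_univ i)
        rw [if_pos h3]
        refine le_trans ?_ hp0
        apply mul_nonpos_of_nonneg_of_nonpos (by positivity)
        linarith
      · push Not at h4
        have h5 : ∀ i, Real.log w ≤ lamI (σ i * (a i j : ℤ) + h i) := by
          intro i
          obtain ⟨q, hq, hqe⟩ := h3 i
          have h6 := h4 i
          rw [hT, mem_Icc, ← hqe] at h6
          have h7 : w < q := by
            by_contra hcon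
            apply h6
            have := hq.one_le
            constructor <;> omega
          rw [← hqe]
          unfold lamI
          rw [if_pos (by exact_mod_cast hq.one_le), Int.toNat_natCast, ArithmeticFunction.vonMangoldt_apply_prime hq]
          apply Real.log_le_log (by exact_mod_cast hw)
          exact_mod_cast h7.le
        rw [if_pos h3]
        calc _ ≤ Real.log w ^ s * 1 := mul_le_mul_of_nonneg_left (by linarith) (by positivity)
          _ = ∏ _i : Fin s, Real.log w := by rw [mul_one, prod_const, card_univ, Fintype.card_fin]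
          _ ≤ _ := prod_le_prod (fun _ _ => hL0) (fun i _ => h5 i)
    · rw [if_neg h3]
      refine le_trans ?_ hp0
      apply mul_nonpos_of_nonneg_of_nonpos (by positivity)
      linarith
  refine le_trans ?_ (sum_le_sum hpt)
  rw [← mul_sum]
  apply mul_le_mul_of_nonneg_left _ (by positivity)
  rw [sum_sub_distrib, ← sum_filter, sum_const, nsmul_eq_mul, mul_one, sum_comm]
  have h6 : ∀ i ∈ (univ : Finset (Fin s)), ∑ j ∈ J, (if σ i * (a i j : ℤ) + h i ∈ T then (1 : ℝ) else 0) ≤ (w : ℝ) := by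
    intro i _
    rw [← sum_filter, sum_const, nsmul_eq_mul, mul_one]
    exact_mod_cast (few _ (inj_form (σ i) (hσ i) (a i) (hinj i) (h i)) T).trans hTc.le
  have h7 := sum_le_sum h6
  rw [sum_const, card_univ, Fintype.card_fin, nsmul_eq_mul] at h7
  refine sub_le_sub (le_of_eq ?_) h7
  unfold prm
  congr!

end Pool.Agent.Q26.IX
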