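import Pool.Agent.Q26.IX.C

set_option autoImplicit false

/-! The main theorem for arbitrary index sets. -/

namespace Pool.Agent.Q26.IX
open Finset Filter Topology
open Pool.Agent.H373R2.T7
open Pool.Agent.Y820.LF
open Pool.Agent.Q26.PD (OneZ HasZ abs_le_of)

lemma ev_logs (c d : ℝ) (s : ℕ) (ε : ℝ) (hε : 0 < ε) : ∀ᶠ t : ℝ in atTop,
    1 - ε ≤ (t / (t + c)) ^ s ∧ (t / (t - d * Real.log t - Real.log 2)) ^ s ≤ 1 + ε ∧ 1 ≤ t - d * Real.log t - Real.log 2 ∧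
      1 ≤ t + c := by
  have hl : Tendsto (fun t : ℝ => Real.log t / t) atTop (𝓝 0) := Real.isLittleO_log_id_atTop.tendsto_div_nhds_zero
  have hi : ∀ b : ℝ, Tendsto (fun t : ℝ => b / t) atTop (𝓝 0) := fun b => tendsto_const_nhds.div_atTop tendsto_id
  have h1 : Tendsto (fun t : ℝ => (1 + c / t)⁻¹ ^ s) atTop (𝓝 1) := by
    have e1 : Tendsto (fun t : ℝ => 1 + c / t) atTop (𝓝 (1 + 0)) := tendsto_const_nhds.add (hi c)
    have e2 := (e1.inv₀ (by norm_num)).pow s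
    simpa using e2
  have h2 : Tendsto (fun t : ℝ => 1 - d * (Real.log t / t) - Real.log 2 / t) atTop (𝓝 1) := by
    have e1 : Tendsto (fun t : ℝ => 1 - d * (Real.log t / t) - Real.log 2 / t) atTop (𝓝 (1 - d * 0 - 0)) :=
      (tendsto_const_nhds.sub (hl.const_mul d)).sub (hi _)
    simpa using e1
  have h3 : Tendsto (fun t : ℝ => (1 - d * (Real.log t / t) - Real.log 2 / t)⁻¹ ^ s) atTop (𝓝 1) := by
    have e2 := (h2.inv₀ (by norm_num)).pow s
    simpa using e2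
  filter_upwards [h1.eventually (lt_mem_nhds (show 1 - ε < 1 by linarith)), h3.eventually (gt_mem_nhds (show (1 : ℝ) < 1 + ε by linarith)),
    h2.eventually (lt_mem_nhds (show (1 / 2 : ℝ) < 1 by norm_num)), eventually_ge_atTop (2 + |c|)] with t a1 a2 a3 a4
  have hc := neg_abs_le c
  have hc' := abs_nonneg c
  have ht : 0 < t := by linarith
  have e1 : t / (t + c) = (1 + c / t)⁻¹ := by
    rw [show 1 + c / t = (t + c) / t by field_simp, inv_div]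
  have e2 : t - d * Real.log t - Real.log 2 = t * (1 - d * (Real.log t / t) - Real.log 2 / t) := by
    field_simp
  have e3 : t / (t - d * Real.log t - Real.log 2) = (1 - d * (Real.log t / t) - Real.log 2 / t)⁻¹ := by
    rw [e2, div_mul_eq_div_div, div_self ht.ne', one_div]
  refine ⟨by rw [e1]; exact a1.le, by rw [e3]; exact a2.le, ?_, by linarith⟩
  rw [e2]
  nlinarith

theorem conv (s A Bt : ℕ) (hBt : 1 ≤ Bt) (ε : ℝ) (hε : 0 < ε) : ∃ X₀ : ℕ, ∀ X : ℕ, X₀ ≤ X → ∀ (z : ℕ) (J : Finset ℕ)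
    (σ : Fin s → ℤ) (a : Fin s → ℕ → ℕ) (h : Fin s → ℤ), (∀ i, σ i = 1 ∨ σ i = -1) →
    (∀ i, Set.InjOn (a i) (J : Set ℕ)) → (∀ i, ∀ j ∈ J, σ i * (a i j : ℤ) + h i ≤ ((Bt * X : ℕ) : ℤ)) →
    DJ J z σ a h ≤ X / Real.log X ^ (A + 1) →
    |(prm J σ a h : ℝ) - rgh J z σ a h / (Vz z * Real.log X) ^ s| ≤
      ε * (rgh J z σ a h / (Vz z * Real.log X) ^ s) + X / Real.log X ^ A := by
  have hcomp : Tendsto (fun X : ℕ => Real.log (X : ℝ)) atTop atTop :=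
    Real.tendsto_log_atTop.comp tendsto_natCast_atTop_atTop
  have hpow : ∀ k : ℕ, ∀ K : ℝ, 0 < K → ∀ᶠ X : ℕ in atTop, K * Real.log X ^ k ≤ (X : ℝ) := by
    intro k K hK
    have h := (Real.isLittleO_pow_log_id_atTop (n := k)).bound (show (0 : ℝ) < 1 / K by positivity)
    have h' := tendsto_natCast_atTop_atTop.eventually h
    filter_upwards [h'] with X hX
    rw [Real.norm_of_nonneg (pow_nonneg (Real.log_natCast_nonneg X) _), id, Real.norm_of_nonneg (Nat.cast_nonneg X)] at hX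
    calc K * Real.log X ^ k ≤ K * (1 / K * X) := mul_le_mul_of_nonneg_left hX hK.le
      _ = X := by field_simp
  have hev := (hcomp.eventually (ev_logs (Real.log Bt) ((A : ℝ) + 1) s ε hε)).and
    ((hpow (2 * A + 4) (16 * Bt) (by positivity)).and ((hpow (A + 1) 2 (by norm_num)).and
      ((hcomp.eventually (eventually_ge_atTop ((s : ℝ) + 1 + Real.log Bt))).and (eventually_ge_atTop 2))))
  obtain ⟨X₀, hX₀⟩ := eventually_atTop.1 hev
  refine ⟨X₀, fun X hX z J σ a h hσ hinj hv hD => ?_⟩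
  obtain ⟨⟨b1, b2, b3, b4⟩, b5, b6, b7, b8⟩ := hX₀ X hX
  obtain ⟨L, hL⟩ : ∃ L, L = Real.log (X : ℝ) := ⟨_, rfl⟩
  rw [← hL] at b1 b2 b3 b4 b5 b6 b7 hD ⊢
  have hX0 : (0 : ℝ) < X := by exact_mod_cast (by omega : 0 < X)
  have hBt0 : (0 : ℝ) < Bt := by exact_mod_cast hBt
  have hlB : 0 ≤ Real.log (Bt : ℝ) := Real.log_natCast_nonneg Bt
  have hs0 : (0 : ℝ) ≤ s := Nat.cast_nonneg s
  have hL1 : 1 ≤ L := by linarith
  have hL0 : 0 < L := by linarith
  obtain ⟨Y, hY⟩ : ∃ Y, Y = Bt * X := ⟨_, rfl⟩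
  have hlY : Real.log (Y : ℝ) = L + Real.log Bt := by
    rw [hY, Nat.cast_mul, Real.log_mul hBt0.ne' hX0.ne', hL]; ring
  obtain ⟨w, hw⟩ : ∃ w : ℕ, w = ⌊(X : ℝ) / L ^ (A + 1)⌋₊ := ⟨_, rfl⟩
  have hLp : (0 : ℝ) < L ^ (A + 1) := by positivity
  have hq2 : 2 ≤ (X : ℝ) / L ^ (A + 1) := by
    rw [le_div_iff₀ hLp]; exact b6
  have hw1 : (w : ℝ) ≤ X / L ^ (A + 1) := by rw [hw]; exact Nat.floor_le (by positivity)
  have hw2 : (X : ℝ) / L ^ (A + 1) / 2 ≤ w := by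
    have := Nat.lt_floor_add_one ((X : ℝ) / L ^ (A + 1))
    rw [← hw] at this
    linarith
  have hwpos : 1 ≤ w := by
    have : (1 : ℝ) ≤ w := by linarith
    exact_mod_cast this
  obtain ⟨lw, hlw⟩ : ∃ lw, lw = Real.log (w : ℝ) := ⟨_, rfl⟩
  have hlw1 : L - ((A : ℝ) + 1) * Real.log L - Real.log 2 ≤ lw := by
    have e1 : Real.log ((X : ℝ) / L ^ (A + 1) / 2) = L - ((A : ℝ) + 1) * Real.log L - Real.log 2 := by
      rw [Real.log_div (by positivity) (by norm_num), Real.log_div hX0.ne' hLp.ne', Real.log_pow, ← hL]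
      push_cast
      ring
    rw [← e1, hlw]
    exact Real.log_le_log (by positivity) hw2
  have hlw0 : 1 ≤ lw := by linarith
  -- the bounds
  obtain ⟨S, hS⟩ : ∃ S, S = ∑ j ∈ J, ∏ i, lamI (σ i * (a i j : ℤ) + h i) := ⟨_, rfl⟩
  obtain ⟨P, hP⟩ : ∃ P : ℝ, P = prm J σ a h := ⟨_, rfl⟩
  obtain ⟨G, hG⟩ : ∃ G : ℝ, G = rgh J z σ a h := ⟨_, rfl⟩
  have hG0 : 0 ≤ G := by rw [hG]; exact Nat.cast_nonneg _
  have hP0 : 0 ≤ P := by rw [hP]; exact Nat.cast_nonneg _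
  obtain ⟨v, hvv⟩ : ∃ v, v = (Vz z)⁻¹ := ⟨_, rfl⟩
  have hv0 : 0 < v := by rw [hvv]; exact inv_pos.2 (Vz_pos z)
  have hlow := lower J Y σ a h hσ hinj (by rw [hY]; exact hv)
  have hup := upper J w hwpos σ a h hσ hinj
  rw [← hS, ← hP] at hlow hup
  rw [← hlw] at hup
  have hDS : |S - v ^ s * G| ≤ X / L ^ (A + 1) := by
    refine le_trans (le_of_eq ?_) hD
    unfold DJ
    rw [sum_sub_distrib, sum_model, hS, hvv, hG]
  rw [← hP, ← hG]
  obtain ⟨M0, hM0⟩ : ∃ M0, M0 = G / (Vz z * L) ^ s := ⟨_, rfl⟩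
  have hMG : v ^ s * G = M0 * L ^ s := by
    rw [hM0, hvv, mul_pow, inv_pow]
    have := Vz_pos z
    field_simp
  have hM00 : 0 ≤ M0 := by
    rw [hM0]
    have := Vz_pos z
    positivity
  rw [← hM0]
  obtain ⟨δ0, hδ0⟩ : ∃ δ0, δ0 = (X : ℝ) / L ^ (A + 1) := ⟨_, rfl⟩
  have hδpos : 0 ≤ δ0 := by rw [hδ0]; positivity
  rw [← hδ0] at hDS hw1
  obtain ⟨hd1, hd2⟩ := abs_le.1 hDS
  have hfin : (s + 1) * δ0 ≤ X / L ^ A := by
    rw [hδ0, pow_succ, mul_div_assoc', div_le_div_iff₀ (by positivity) (by positivity)]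
    have : ((s : ℝ) + 1) ≤ L := by linarith
    calc ((s : ℝ) + 1) * X * L ^ A ≤ L * X * L ^ A := by
          apply mul_le_mul_of_nonneg_right (mul_le_mul_of_nonneg_right this hX0.le) (by positivity)
      _ = X * (L ^ A * L) := by ring
  obtain ⟨pp, hpp⟩ : ∃ pp : ℝ, pp = ((Nat.sqrt Y * Nat.log 2 Y : ℕ) : ℝ) := ⟨_, rfl⟩
  rw [← hpp] at hlow
  have hppδ : pp ≤ δ0 := by
    have e1 : ((Nat.sqrt Y : ℕ) : ℝ) ≤ √(Y : ℝ) := Real.nat_sqrt_le_real_sqrt
    have hYr : (0 : ℝ) < Y := by rw [hY]; push_cast; positivity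
    have e2 : ((Nat.log 2 Y : ℕ) : ℝ) ≤ 4 * L := by
      have f1 : ((Nat.log 2 Y : ℕ) : ℝ) * Real.log 2 ≤ Real.log Y := by
        rw [← Real.log_pow]
        apply Real.log_le_log (by positivity)
        exact_mod_cast Nat.pow_log_le_self 2 (by
          intro h0
          rw [h0, Nat.cast_zero] at hYr
          exact lt_irrefl _ hYr)
      have f2 : Real.log Y ≤ 2 * L := by rw [hlY]; linarith
      have f3 := Real.log_two_gt_d9
      have f4 : (0 : ℝ) ≤ ((Nat.log 2 Y : ℕ) : ℝ) := Nat.cast_nonneg _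
      nlinarith
    have e3 : √(Y : ℝ) * (4 * L) * L ^ (A + 1) ≤ X := by
      have f5 : √(Y : ℝ) * (4 * L) * L ^ (A + 1) = √(Y * (16 * L ^ (2 * A + 4))) := by
        rw [Real.sqrt_mul hYr.le, show (16 : ℝ) * L ^ (2 * A + 4) = (4 * L ^ (A + 2)) ^ 2 by ring, Real.sqrt_sq (by positivity)]
        ring
      rw [f5, ← Real.sqrt_sq hX0.le]
      apply Real.sqrt_le_sqrt
      rw [hY]
      push_cast
      calc (Bt : ℝ) * X * (16 * L ^ (2 * A + 4)) = X * (16 * Bt * L ^ (2 * A + 4)) := by ring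
        _ ≤ X * X := mul_le_mul_of_nonneg_left b5 hX0.le
        _ = X ^ 2 := by ring
    rw [hpp, hδ0, le_div_iff₀ hLp]
    push_cast
    calc ((Nat.sqrt Y : ℕ) : ℝ) * ((Nat.log 2 Y : ℕ) : ℝ) * L ^ (A + 1) ≤ √(Y : ℝ) * (4 * L) * L ^ (A + 1) := by
          apply mul_le_mul_of_nonneg_right _ hLp.le
          exact mul_le_mul e1 e2 (Nat.cast_nonneg _) (Real.sqrt_nonneg _)
      _ ≤ X := e3
  have hlYp : 0 < Real.log (Y : ℝ) ^ s := by rw [hlY]; positivity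
  have hlY1 : 1 ≤ Real.log (Y : ℝ) ^ s := by
    rw [hlY]; exact one_le_pow₀ (by linarith)
  have hlw1s : 1 ≤ lw ^ s := one_le_pow₀ hlw0
  have hLs : 0 < L ^ s := by positivity
  -- lower bound of P
  have hlo : (1 - ε) * M0 - (s + 1) * δ0 ≤ P := by
    have f1 : (1 - ε) * Real.log (Y : ℝ) ^ s ≤ L ^ s := by
      have := b1
      rw [← hlY, div_pow, le_div_iff₀ hlYp] at this
      exact this
    have f2 : M0 * L ^ s - δ0 ≤ Real.log (Y : ℝ) ^ s * (P + s * pp) := by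
      rw [← hMG]; linarith
    have f3 : (1 - ε) * M0 * Real.log (Y : ℝ) ^ s ≤ M0 * L ^ s := by nlinarith
    have f4 : Real.log (Y : ℝ) ^ s * ((1 - ε) * M0 - δ0) ≤ Real.log (Y : ℝ) ^ s * (P + s * pp) := by
      have : δ0 ≤ Real.log (Y : ℝ) ^ s * δ0 := by nlinarith
      nlinarith
    have f5 := le_of_mul_le_mul_left f4 hlYp
    have f6 : (s : ℝ) * pp ≤ s * δ0 := mul_le_mul_of_nonneg_left hppδ hs0
    linarith
  have hhi : P ≤ (1 + ε) * M0 + (s + 1) * δ0 := by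
    have f0 : L ^ s ≤ (1 + ε) * lw ^ s := by
      have g1 : L / (L - ((A : ℝ) + 1) * Real.log L - Real.log 2) ≥ L / lw :=
        div_le_div_of_nonneg_left hL0.le (by linarith) hlw1
      have g2 : (L / lw) ^ s ≤ 1 + ε := (pow_le_pow_left₀ (by positivity) g1 s).trans b2
      rw [div_pow, div_le_iff₀ (by positivity)] at g2
      exact g2
    have f2 : lw ^ s * (P - s * w) ≤ M0 * L ^ s + δ0 := by
      rw [← hMG]; linarith
    have f3 : M0 * L ^ s ≤ lw ^ s * ((1 + ε) * M0) := by nlinarith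
    have f4 : lw ^ s * (P - s * w) ≤ lw ^ s * ((1 + ε) * M0 + δ0) := by
      have : δ0 ≤ lw ^ s * δ0 := by nlinarith
      nlinarith
    have f5 := le_of_mul_le_mul_left f4 (by linarith : 0 < lw ^ s)
    have f6 : (s : ℝ) * w ≤ s * δ0 := mul_le_mul_of_nonneg_left hw1 hs0
    linarith
  rw [abs_le]
  constructor <;> linarith

end Pool.Agent.Q26.IX
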