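import Pool.Agent.Q26.IX.D

set_option autoImplicit false

/-! The main theorem: arbitrary index sets, injective maps, shifts in structured families. -/

namespace Pool.Agent.Q26.IX
open Finset Filter Topology
open Pool.Agent.H373R2.T7
open Pool.Agent.Y820.LF
open Pool.Agent.Q26.PD (OneZ HasZ abs_le_of)

open Classical in
theorem ix_main (s : ℕ) (hs : 1 ≤ s) (κ : Fin s → ℤ) (Bv : Fin s → ℕ)
    (𝒮 : Fin s → ℕ → Finset ℕ → Prop) (h𝒮 : ∀ i, HasZ (κ i) (Bv i) (𝒮 i)) (B R A U : ℕ) :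
    ∃ B0 : ℕ, ∀ (E : ℕ) (ε : ℝ), 0 < ε → ∃ X₀ : ℕ, ∀ X, X₀ ≤ X → ∀ z : ℕ, Real.log X ^ B0 ≤ z → (z : ℝ) ≤ Real.log X ^ E →
      ∀ S : Fin s → Finset ℕ, (∀ i, 𝒮 i X (S i)) → ∀ c : Fin s → ℤ, (∀ i, |c i| ≤ (B : ℤ) * X) →
      ∀ (J : Finset ℕ) (σ : Fin s → ℤ) (a : Fin s → ℕ → ℕ), (∀ i, σ i = 1 ∨ σ i = -1) →
      (∀ i, ∀ j ∈ J, 1 ≤ a i j ∧ a i j ≤ X) → (∀ i, Set.InjOn (a i) (J : Set ℕ)) →
      (((Fintype.piFinset S).filter fun v => ¬ ∀ h : Fin s → ℤ,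
         (∀ i, ((|h i - (c i + κ i * (v i : ℤ))| : ℤ) : ℝ) ≤ Real.log X ^ R) →
         |(prm J σ a h : ℝ) - rgh J z σ a h / (Vz z * Real.log X) ^ s| ≤
           ε * (rgh J z σ a h / (Vz z * Real.log X) ^ s) + X / Real.log X ^ A).card : ℝ) ≤
      ((Fintype.piFinset S).card : ℝ) / Real.log X ^ U := by
  obtain ⟨B1, hB1⟩ : ∃ B1, B1 = ∑ i, (B + (κ i).natAbs * Bv i) := ⟨_, rfl⟩
  have hB1i : ∀ i, B + (κ i).natAbs * Bv i ≤ B1 := fun i => by
    rw [hB1]; exact single_le_sum (f := fun i => B + (κ i).natAbs * Bv i) (fun _ _ => Nat.zero_le _) (mem_univ i)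
  obtain ⟨B0, hB0⟩ := ix_fam s hs κ Bv 𝒮 h𝒮 B R (A + 1) U
  refine ⟨B0, fun E ε hε => ?_⟩
  obtain ⟨N1, h1⟩ := hB0 E
  obtain ⟨N2, h2⟩ := conv s A (B1 + 3) (by omega) ε hε
  -- bound of the values of the members
  choose Cc hC0 hC using h𝒮
  choose B0' h0' using fun i => hC i 1 0 0 le_rfl
  choose N3 h3 using fun i => h0' i E
  obtain ⟨Nt, hNt⟩ : ∃ Nt, Nt = ∑ i, N3 i := ⟨_, rfl⟩
  have hNi : ∀ i, N3 i ≤ Nt := fun i => by rw [hNt]; exact single_le_sum (fun _ _ => Nat.zero_le _) (mem_univ i)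
  obtain ⟨n5, hn5⟩ : ∃ n5 : ℕ, ∀ n : ℕ, n5 ≤ n → Real.log n ^ R ≤ (n : ℝ) := by
    have h := (Real.isLittleO_pow_log_id_atTop (n := R)).bound (show (0 : ℝ) < 1 by norm_num)
    have h' := tendsto_natCast_atTop_atTop.eventually h
    obtain ⟨n5, h5⟩ := Filter.eventually_atTop.1 h'
    refine ⟨n5 + 1, fun n hn => ?_⟩
    have := h5 n (by omega)
    rw [one_mul, Real.norm_of_nonneg (pow_nonneg (Real.log_natCast_nonneg n) _), id, Real.norm_of_nonneg (Nat.cast_nonneg n)] at this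
    exact this
  refine ⟨N1 + N2 + Nt + n5 + 3, fun X hX z hz1 hz2 S hS c hc J σ a hσ ha hinj => ?_⟩
  have hmain := h1 X (by omega) z hz1 hz2 S hS c hc J σ a hσ ha hinj
  refine le_trans ?_ hmain
  have hsub : (Fintype.piFinset S).filter (fun v => ¬ ∀ h : Fin s → ℤ,
         (∀ i, ((|h i - (c i + κ i * (v i : ℤ))| : ℤ) : ℝ) ≤ Real.log X ^ R) →
         |(prm J σ a h : ℝ) - rgh J z σ a h / (Vz z * Real.log X) ^ s| ≤
           ε * (rgh J z σ a h / (Vz z * Real.log X) ^ s) + X / Real.log X ^ A) ⊆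
      (Fintype.piFinset S).filter fun v => ∃ t : Fin s → ℤ, (∀ i, ((|t i| : ℤ) : ℝ) ≤ Real.log X ^ R) ∧
         X / Real.log X ^ (A + 1) < DJ J z σ a (fun i => c i + κ i * (v i : ℤ) + t i) := by
    intro v hv
    rw [mem_filter] at hv ⊢
    refine ⟨hv.1, ?_⟩
    by_contra hcon
    push Not at hcon
    apply hv.2
    intro h hh
    have hvS : ∀ i, v i ∈ S i := Fintype.mem_piFinset.1 hv.1
    have hvB : ∀ i, v i ≤ Bv i * X := by
      intro i
      obtain ⟨Ω, p, -, -, -, hpA, hmem, -⟩ := h3 i X (by have := hNi i; omega) (S i) (hS i)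
      exact hpA (v i) (hmem (v i) (hvS i)).1
    have ht := hcon (fun i => h i - (c i + κ i * (v i : ℤ))) hh
    have e1 : (fun i => c i + κ i * (v i : ℤ) + (h i - (c i + κ i * (v i : ℤ)))) = h := by
      funext i; ring
    rw [e1] at ht
    refine h2 X (by omega) z J σ a h hσ hinj ?_ ht
    intro i j hj
    have h6 := abs_le_of (c i) (κ i) X (v i) B (Bv i) (hc i) (hvB i)
    have h7 := (abs_le.1 h6).2
    have h8 : σ i * (a i j : ℤ) ≤ X := by
      have h9 : (a i j : ℤ) ≤ X := by exact_mod_cast (ha i j hj).2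
      have h10 : (0 : ℤ) ≤ (a i j : ℤ) := by positivity
      rcases hσ i with h | h <;> rw [h] <;> linarith
    have h9 : |h i - (c i + κ i * (v i : ℤ))| ≤ X := by
      have := (hh i).trans (hn5 X (by omega))
      exact_mod_cast this
    have h10 := (abs_le.1 h9).2
    have h11 : ((B + (κ i).natAbs * Bv i : ℕ) : ℤ) * X ≤ ((B1 : ℕ) : ℤ) * X := by
      apply mul_le_mul_of_nonneg_right _ (by positivity)
      have := hB1i i
      exact_mod_cast this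
    push_cast at h7 h11 ⊢
    have h12 : (0 : ℤ) ≤ (X : ℤ) := by positivity
    linarith
  exact_mod_cast card_le_card hsub

end Pool.Agent.Q26.IX
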