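import Pool.Agent.Q26.IX.F
import Pool.Agent.Q26.IX.E

set_option autoImplicit false

/-! Many index sets and maps at once. -/

namespace Pool.Agent.Q26.IX
open Finset Filter Topology
open Pool.Agent.H373R2.T7
open Pool.Agent.W93.TD (total_w)
open Pool.Agent.Y885 (TLaw tl_dif tl_point las_lawP)
open Pool.Agent.Y820.LF
open Pool.Agent.Q26.PD (OneZ HasZ abs_le_of tlZ pf pf_nonneg pf_one)

/-- the exponent used for the estimate for one shift -/
def UJ (D A R s : ℕ) : ℕ := (1 + (A + 1) + (R + 1) * s + D) + s + 2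

open Classical in
theorem ix_core_fam (s : ℕ) (hs : 1 ≤ s) (κ : Fin s → ℤ) (B R A D B0 E : ℕ) (ε : ℝ) (hε : 0 < ε) :
    ∃ X₀ : ℕ, ∀ X, X₀ ≤ X → ∀ z : ℕ, Real.log X ^ B0 ≤ z → (z : ℝ) ≤ Real.log X ^ E →
      ∀ c : Fin s → ℤ, (∀ i, |c i| ≤ (B : ℤ) * X) → ∀ (Ω : Fin s → Finset ℕ) (p : Fin s → ℕ → ℝ),
      (∀ i, ∀ v ∈ Ω i, 0 ≤ p i v) → (∀ i, ∑ v ∈ Ω i, p i v = 1) → (∀ i, ∀ v ∈ Ω i, |c i + κ i * (v : ℤ)| ≤ (B : ℤ) * X) →
      (∀ i, OneZ X (UJ D A R s) B0 E (B + 3) (κ i) (Ω i) (p i)) →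
      ∀ (τ : Finset (Fin s → ℕ)), (τ.card : ℝ) ≤ Real.log X ^ D →
      ∀ (J : (Fin s → ℕ) → Finset ℕ) (σ : Fin s → ℤ) (a : (Fin s → ℕ) → Fin s → ℕ → ℕ), (∀ i, σ i = 1 ∨ σ i = -1) →
      (∀ y ∈ τ, ∀ i, ∀ j ∈ J y, 1 ≤ a y i j ∧ a y i j ≤ X) → (∀ y ∈ τ, ∀ i, Set.InjOn (a y i) (J y : Set ℕ)) →
      ∃ v ∈ Fintype.piFinset Ω, ∀ y ∈ τ, ∀ h : Fin s → ℤ,
         (∀ i, ((|h i - (c i + κ i * (v i : ℤ))| : ℤ) : ℝ) ≤ Real.log X ^ R) →
         |(prm (J y) σ (a y) h : ℝ) - rgh (J y) z σ (a y) h / (Vz z * Real.log X) ^ s| ≤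
           ε * (rgh (J y) z σ (a y) h / (Vz z * Real.log X) ^ s) + X / Real.log X ^ A := by
  obtain ⟨N2, h2⟩ := conv s A (B + 3) (by omega) ε hε
  obtain ⟨U', hU'⟩ : ∃ U', U' = 1 + (A + 1) + (R + 1) * s + D := ⟨_, rfl⟩
  have hUI : UJ D A R s = U' + s + 2 := by rw [hU']; rfl
  obtain ⟨N3, h3⟩ := Vz_inv_small E
  obtain ⟨n4, hn4⟩ := exists_nat_ge (Real.exp ((s : ℝ) * 2 ^ s))
  obtain ⟨n5, hn5⟩ : ∃ n5 : ℕ, ∀ n : ℕ, n5 ≤ n → Real.log n ^ R ≤ (n : ℝ) := by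
    have h := (Real.isLittleO_pow_log_id_atTop (n := R)).bound (show (0 : ℝ) < 1 by norm_num)
    have h' := tendsto_natCast_atTop_atTop.eventually h
    obtain ⟨n5, h5⟩ := Filter.eventually_atTop.1 h'
    refine ⟨n5 + 1, fun n hn => ?_⟩
    have := h5 n (by omega)
    rw [one_mul, Real.norm_of_nonneg (pow_nonneg (Real.log_natCast_nonneg n) _), id, Real.norm_of_nonneg (Nat.cast_nonneg n)] at this
    exact this
  refine ⟨N2 + N3 + n4 + n5 + (B + 4) + 21, fun X hX z hz1 hz2 c hc Ω p hp0 hp1 hpv hone τ hτ J σ a hσ ha hinj => ?_⟩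
  have hX0 : (0 : ℝ) < X := by exact_mod_cast (by omega : 0 < X)
  obtain ⟨L, hL⟩ : ∃ L, L = Real.log (X : ℝ) := ⟨_, rfl⟩
  have hlog3 : 3 ≤ L := by
    rw [hL, Real.le_log_iff_exp_le hX0]
    have h21 : (21 : ℝ) ≤ X := by exact_mod_cast (by omega : 21 ≤ X)
    have h2 : Real.exp 3 ≤ 21 := by
      have h4 := Real.exp_one_lt_d9
      have h6 : Real.exp 3 = Real.exp 1 ^ 3 := by rw [← Real.exp_nat_mul]; norm_num
      rw [h6]
      calc Real.exp 1 ^ 3 ≤ (2.7182818286 : ℝ) ^ 3 := pow_le_pow_left₀ (Real.exp_pos _).le h4.le 3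
        _ ≤ 21 := by norm_num
    linarith
  have hL0 : 0 < L := by linarith
  have hVz : (Vz z)⁻¹ ≤ L := by
    rw [hL]
    refine h3 X (by omega) z ?_ hz2
    by_contra hz0
    have : z = 0 := by omega
    subst this
    rw [← hL] at hz1
    have : 0 < L ^ B0 := by positivity
    simp only [Nat.cast_zero] at hz1
    linarith
  have hXi : (1 : ℤ) ≤ X := by exact_mod_cast (by omega : 1 ≤ X)
  -- the windows
  obtain ⟨r, hr⟩ : ∃ r : ℕ, r = ⌊L ^ R⌋₊ := ⟨_, rfl⟩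
  have hr1 : (r : ℝ) ≤ L ^ R := by rw [hr]; exact Nat.floor_le (by positivity)
  have hrX : (r : ℤ) ≤ X := by
    have : (r : ℝ) ≤ X := hr1.trans (by rw [hL]; exact hn5 X (by omega))
    exact_mod_cast this
  obtain ⟨T, hT⟩ : ∃ T : Finset (Fin s → ℤ), T = Fintype.piFinset fun _ : Fin s => Icc (-(r : ℤ)) (r : ℤ) := ⟨_, rfl⟩
  have hTc : (T.card : ℝ) ≤ L ^ ((R + 1) * s) := by
    rw [hT, Fintype.card_piFinset, prod_const, card_univ, Fintype.card_fin, Int.card_Icc]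
    have e1 : ((r : ℤ) + 1 - -(r : ℤ)).toNat = 2 * r + 1 := by omega
    rw [e1, pow_mul]
    push_cast
    apply pow_le_pow_left₀ (by positivity)
    have h5 : (1 : ℝ) ≤ L ^ R := one_le_pow₀ (by linarith)
    calc 2 * (r : ℝ) + 1 ≤ 2 * L ^ R + L ^ R := by linarith
      _ = L ^ R * 3 := by ring
      _ ≤ L ^ R * L := mul_le_mul_of_nonneg_left hlog3 (by positivity)
      _ = L ^ (R + 1) := by rw [pow_succ]
  have hσa : ∀ y ∈ τ, ∀ i, ∀ j ∈ J y, σ i * (a y i j : ℤ) ≤ X := by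
    intro y hy i j hj
    have h9 : (a y i j : ℤ) ≤ X := by exact_mod_cast (ha y hy i j hj).2
    have h10 : (0 : ℤ) ≤ (a y i j : ℤ) := by positivity
    rcases hσ i with h | h <;> rw [h] <;> linarith
  have hmain : ∀ y ∈ τ, ∀ t ∈ T, ∑ m ∈ Fintype.piFinset Ω, (∏ i, p i (m i)) * DJ (J y) z σ (a y) (fun i => (c i + t i) + κ i * (m i : ℤ)) ≤
      X / L ^ U' := by
    intro y hy t ht
    rw [hT, Fintype.mem_piFinset] at ht
    have hti : ∀ i, |t i| ≤ X := fun i => by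
      have := mem_Icc.1 (ht i)
      rw [abs_le]
      constructor <;> linarith [this.1, this.2]
    have hci : ∀ i, |c i + t i| ≤ ((B + 1 : ℕ) : ℤ) * X := fun i => by
      have := abs_add_le (c i) (t i)
      push_cast
      linarith [hc i, hti i]
    rw [hL]
    refine ix_diff hs (J y) X (B + 3) z U' κ (fun i => c i + t i) σ (a y) Ω p hp0 hp1 ?_ ?_ (by omega) (by omega) (by linarith) ?_ ?_ ?_
    · intro i v hv j hj
      have h7 := (abs_le.1 (hpv i v hv)).2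
      have h8 := (abs_le.1 (hti i)).2
      have h9 := hσa y hy i j hj
      push_cast at h7 ⊢
      have h12 : (0 : ℤ) ≤ (X : ℤ) := by positivity
      linarith
    · intro i K hK G hG
      have h13 := hone i
      rw [hUI] at h13
      refine one_idx (J y) X (U' + s + 2) B0 E (B + 3) (κ i) (Ω i) (p i) h13 (σ i) (hσ i) (a y i)
        (fun j hj => mem_Icc.2 (ha y hy i j hj)) (hinj y hy i) (c i + t i) ?_ z hz1 hz2 K hK G hG
      have h12 := hci i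
      push_cast at h12 ⊢
      linarith
    · have h14 : ((B + 3 : ℕ) : ℝ) ≤ X := by exact_mod_cast (by omega : B + 3 ≤ X)
      exact Real.log_le_log (by exact_mod_cast (by omega : 0 < B + 3)) h14
    · rw [Real.le_log_iff_exp_le hX0]
      refine hn4.trans ?_
      exact_mod_cast (by omega : n4 ≤ X)
    · rw [← hL]; exact hVz
  by_contra hcon
  push Not at hcon
  obtain ⟨W, hW⟩ : ∃ W : (Fin s → ℕ) → ℝ, W = fun v => ∑ y ∈ τ, ∑ t ∈ T, DJ (J y) z σ (a y) (fun i => (c i + t i) + κ i * (v i : ℤ)) :=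
    ⟨_, rfl⟩
  have hWbad : ∀ v ∈ Fintype.piFinset Ω, 1 ≤ (L ^ (A + 1) / X) * W v := by
    intro v hv
    obtain ⟨y, hy, h, hh1, hh2⟩ := hcon v hv
    have hbad : X / L ^ (A + 1) < DJ (J y) z σ (a y) h := by
      by_contra hle
      push Not at hle
      rw [hL] at hle
      have hfin := h2 X (by omega) z (J y) σ (a y) h hσ (hinj y hy) (by
        intro i j hj
        have h9 : |h i - (c i + κ i * (v i : ℤ))| ≤ X := by
          have := (hh1 i).trans (hn5 X (by omega))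
          exact_mod_cast this
        have h10 := (abs_le.1 h9).2
        have h11 := (abs_le.1 (hpv i (v i) (Fintype.mem_piFinset.1 hv i))).2
        have h12 := hσa y hy i j hj
        push_cast at h11 ⊢
        linarith) hle
      exact absurd hfin (not_le.2 hh2)
    obtain ⟨t, ht⟩ : ∃ t : Fin s → ℤ, t = fun i => h i - (c i + κ i * (v i : ℤ)) := ⟨_, rfl⟩
    have htT : t ∈ T := by
      rw [hT, Fintype.mem_piFinset]
      intro i
      have ht1 : ((|t i| : ℤ) : ℝ) ≤ L ^ R := by rw [ht, hL]; exact hh1 i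
      have h8 : (|t i|).toNat ≤ r := by
        rw [hr]
        apply Nat.le_floor
        have h9 : (((|t i|).toNat : ℤ) : ℝ) = ((|t i| : ℤ) : ℝ) := by rw [Int.toNat_of_nonneg (abs_nonneg _)]
        have h10 : (((|t i|).toNat : ℕ) : ℝ) = ((|t i| : ℤ) : ℝ) := by rw [← h9]; norm_cast
        rw [h10]; exact ht1
      have h11 : |t i| ≤ (r : ℤ) := by
        have := Int.toNat_of_nonneg (abs_nonneg (t i))
        omega
      rw [mem_Icc]
      exact abs_le.1 h11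
    have h12 : DJ (J y) z σ (a y) (fun i => (c i + t i) + κ i * (v i : ℤ)) ≤ W v := by
      rw [hW]
      refine le_trans ?_ (single_le_sum (f := fun y => ∑ t ∈ T, DJ (J y) z σ (a y) (fun i => (c i + t i) + κ i * (v i : ℤ)))
        (fun y _ => sum_nonneg fun t _ => DJ_nonneg _ _ _ _ _) hy)
      exact single_le_sum (f := fun t : Fin s → ℤ => DJ (J y) z σ (a y) (fun i => (c i + t i) + κ i * (v i : ℤ)))
        (fun t _ => DJ_nonneg _ _ _ _ _) htT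
    have h13 : (fun i => (c i + t i) + κ i * (v i : ℤ)) = h := by
      rw [ht]; funext i; ring
    rw [h13] at h12
    have h14 : (X : ℝ) / L ^ (A + 1) ≤ W v := hbad.le.trans h12
    rw [div_mul_eq_mul_div, le_div_iff₀ hX0, one_mul]
    rw [div_le_iff₀ (by positivity)] at h14
    linarith
  have hpp : ∀ v ∈ Fintype.piFinset Ω, 0 ≤ ∏ i, p i (v i) := fun v hv =>
    prod_nonneg fun i _ => hp0 i _ (Fintype.mem_piFinset.1 hv i)
  rw [← hL] at hτ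
  have hfin : (1 : ℝ) ≤ 1 / L := by
    calc (1 : ℝ) = ∑ v ∈ Fintype.piFinset Ω, ∏ i, p i (v i) := (total_w _ _ hp1).symm
      _ ≤ ∑ v ∈ Fintype.piFinset Ω, (L ^ (A + 1) / X) * ((∏ i, p i (v i)) * W v) := by
          apply sum_le_sum
          intro v hv
          have e1 := hpp v hv
          have e2 := hWbad v hv
          calc ∏ i, p i (v i) = (∏ i, p i (v i)) * 1 := (mul_one _).symm
            _ ≤ (∏ i, p i (v i)) * ((L ^ (A + 1) / X) * W v) := mul_le_mul_of_nonneg_left e2 e1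
            _ = _ := by ring
      _ = (L ^ (A + 1) / X) * ∑ y ∈ τ, ∑ t ∈ T, ∑ v ∈ Fintype.piFinset Ω, (∏ i, p i (v i)) *
            DJ (J y) z σ (a y) (fun i => (c i + t i) + κ i * (v i : ℤ)) := by
          rw [← mul_sum]
          congr 1
          rw [hW]
          simp only [mul_sum]
          rw [sum_comm]
          apply sum_congr rfl
          intro y _
          rw [sum_comm]
      _ ≤ (L ^ (A + 1) / X) * ∑ y ∈ τ, ∑ t ∈ T, (X : ℝ) / L ^ U' := by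
          apply mul_le_mul_of_nonneg_left (sum_le_sum fun y hy => sum_le_sum (hmain y hy)) (by positivity)
      _ = (L ^ (A + 1) / X) * ((τ.card : ℝ) * ((T.card : ℝ) * (X / L ^ U'))) := by
          rw [sum_const, nsmul_eq_mul, sum_const, nsmul_eq_mul]
      _ ≤ (L ^ (A + 1) / X) * (L ^ D * (L ^ ((R + 1) * s) * (X / L ^ U'))) := by
          apply mul_le_mul_of_nonneg_left _ (by positivity)
          exact mul_le_mul hτ (mul_le_mul_of_nonneg_right hTc (by positivity)) (by positivity) (by positivity)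
      _ = 1 / L := by
          rw [hU', pow_add L (1 + (A + 1) + (R + 1) * s), pow_add L (1 + (A + 1)), pow_add L 1, pow_one]
          field_simp
  rw [le_div_iff₀ hL0] at hfin
  linarith

open Classical in
theorem ix_las_fam (s l P R A D : ℕ) (hs : 1 ≤ s) (hl : 2 ≤ l) (hP : 1 ≤ P) : ∃ Cst : ℝ, ∀ Hh B : ℕ, ∃ B0 : ℕ, ∀ (E : ℕ) (ε : ℝ),
    0 < ε → ∃ X₀ : ℕ, ∀ T : Fin s → Set ℕ, (∀ i, ∀ x : ℕ, 1 ≤ x → ∃ a ∈ T i, x ≤ a ∧ a ≤ l * x) → ∀ X : ℕ, X₀ ≤ X →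
    ∀ z : ℕ, Real.log X ^ B0 ≤ z → (z : ℝ) ≤ Real.log X ^ E →
    ∀ c : Fin s → ℤ, (∀ i, |c i| ≤ (B : ℤ) * X) →
    ∀ (τ : Finset (Fin s → ℕ)), (τ.card : ℝ) ≤ Real.log X ^ D →
    ∀ (J : (Fin s → ℕ) → Finset ℕ) (σ : Fin s → ℤ) (a : (Fin s → ℕ) → Fin s → ℕ → ℕ), (∀ i, σ i = 1 ∨ σ i = -1) →
      (∀ y ∈ τ, ∀ i, ∀ j ∈ J y, 1 ≤ a y i j ∧ a y i j ≤ X) → (∀ y ∈ τ, ∀ i, Set.InjOn (a y i) (J y : Set ℕ)) →
    ∃ S : Fin s → Finset ℕ, (∀ i, ∀ x ∈ S i, x ∈ T i ∧ Real.log X ^ Hh ≤ x ∧ (x : ℝ) ≤ X / Real.log X ^ Hh) ∧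
      (∀ i, ((S i).card : ℝ) ≤ Cst * Real.log (Real.log X) ^ 2) ∧ (∀ i, P ∣ ∑ x ∈ S i, x) ∧
      ∀ y ∈ τ, ∀ h : Fin s → ℤ, (∀ i, ((|h i - (c i + ∑ x ∈ S i, (x : ℤ))| : ℤ) : ℝ) ≤ Real.log X ^ R) →
         |(prm (J y) σ (a y) h : ℝ) - rgh (J y) z σ (a y) h / (Vz z * Real.log X) ^ s| ≤
           ε * (rgh (J y) z σ (a y) h / (Vz z * Real.log X) ^ s) + X / Real.log X ^ A := by
  obtain ⟨b, hb, Cst, hC⟩ := las_lawP l P hl hP (2 * (UJ D A R s + 1) + 6)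
  refine ⟨Cst, fun Hh B => ?_⟩
  obtain ⟨e, he⟩ : ∃ e, e = 1 + ((B + 1) + 3) + 1 := ⟨_, rfl⟩
  obtain ⟨cc, N₀, h0⟩ := hC Hh e
  obtain ⟨Bt, h1⟩ := tlZ b 20 cc hb (by norm_num) (UJ D A R s) (b ^ (e + 1)) 1 ((B + 1) + 3)
  refine ⟨Bt, fun E ε hε => ?_⟩
  obtain ⟨N1, h1⟩ := h1 E
  obtain ⟨n2, h2⟩ := ix_core_fam s hs (fun _ => 1) (B + 1) R A D Bt E ε hε
  refine ⟨N₀ + N1 + n2 + 2, fun T hT X hX z hz1 hz2 c hc τ hτ J σ a hσ ha hinj => ?_⟩
  have hX0 : 0 < X := by omega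
  obtain ⟨K, hK⟩ : ∃ K, K = Nat.log b X + 1 := ⟨_, rfl⟩
  have hKlow : b ^ (K - 1) ≤ X := by
    rw [hK, Nat.add_sub_cancel]
    exact Nat.pow_log_le_self b (by omega)
  have hKup : X < b ^ K := by rw [hK]; exact Nat.lt_pow_succ_log_self (by omega) _
  have hbe : 1 + ((B + 1) + 3) + 1 ≤ b ^ e := by
    rw [← he]
    exact (Nat.lt_pow_self (by omega)).le
  choose n Ω₀ pr Sf g1 g2 g3 using fun i => h0 (T i) (hT i) X (by omega)
  have h4 := fun i => h1 X (by omega) (K + e) (by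
      calc (1 + ((B + 1) + 3) + 1) * X ≤ b ^ e * b ^ K := Nat.mul_le_mul hbe hKup.le
        _ = _ := by rw [← pow_add, add_comm]) (by
      calc b ^ (K + e) = b ^ (e + 1) * b ^ (K - 1) := by rw [← pow_add]; congr 1; omega
        _ ≤ b ^ (e + 1) * X := Nat.mul_le_mul_left _ hKlow) (Fin (n i) → ℕ) (Ω₀ i) (fun _ => pr i)
    (fun ω => ∑ x ∈ Sf i ω, x) (by
      have := g2 i
      rw [← hK] at this
      exact this) (g1 i) (fun ω hω => by
      have h5 := (g3 i ω hω).2.2.1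
      omega)
  have hval : ∀ i, ∀ v ∈ (Ω₀ i).image (fun ω => ∑ x ∈ Sf i ω, x), ∃ ω ∈ Ω₀ i, v = ∑ x ∈ Sf i ω, x := by
    intro i v hv
    rw [mem_image] at hv
    obtain ⟨ω, h5, h6⟩ := hv
    exact ⟨ω, h5, h6.symm⟩
  have hp0 : ∀ i, ∀ ω ∈ Ω₀ i, 0 ≤ (fun _ : Fin (n i) → ℕ => pr i) ω := fun i ω hω => (g2 i).nonneg ω hω
  have hp1 : ∀ i, ∑ v ∈ (Ω₀ i).image (fun ω => ∑ x ∈ Sf i ω, x), pf (Ω₀ i) (fun _ => pr i) (fun ω => ∑ x ∈ Sf i ω, x) v = 1 := by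
    intro i
    have h5 := pf_one (Ω₀ i) (fun _ => pr i) (g1 i) (fun ω => ∑ x ∈ Sf i ω, x)
    convert h5
  have hmain := h2 X (by omega) z hz1 hz2 c (fun i => (hc i).trans (by push_cast; nlinarith [(Nat.cast_nonneg X : (0 : ℤ) ≤ X)]))
    (fun i => (Ω₀ i).image (fun ω => ∑ x ∈ Sf i ω, x))
    (fun i => pf (Ω₀ i) (fun _ => pr i) (fun ω => ∑ x ∈ Sf i ω, x))
    (fun i v _ => pf_nonneg _ _ (hp0 i) _ v) hp1
    (fun i v hv => by
      obtain ⟨ω, hω, rfl⟩ := hval i v hv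
      have h5 := abs_le_of (c i) 1 X (∑ x ∈ Sf i ω, x) B 1 (hc i) (by
        have h5 := (g3 i ω hω).2.2.1
        omega)
      rw [Int.natAbs_one, mul_one] at h5
      exact h5) (fun i c' hc' z hz1 hz2 Kc hKc G hG => by
      have h5 := (h4 i).2 c' hc' z hz1 hz2 Kc hKc G hG
      convert h5) τ hτ J σ a hσ ha hinj
  obtain ⟨v, hv, hgood⟩ := hmain
  choose ω hω hvω using fun i => hval i (v i) (Fintype.mem_piFinset.1 hv i)
  refine ⟨fun i => Sf i (ω i), fun i => (g3 i _ (hω i)).1, fun i => (g3 i _ (hω i)).2.1, fun i => (g3 i _ (hω i)).2.2.2, ?_⟩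
  intro y hy h hh
  refine hgood y hy h fun i => ?_
  have h5 : c i + 1 * (v i : ℤ) = c i + ∑ x ∈ Sf i (ω i), (x : ℤ) := by
    rw [hvω i, one_mul]
    push_cast
    rfl
  rw [h5]
  exact hh i

end Pool.Agent.Q26.IX
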