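import Pool.Agent.Q26.IX.K
import Pool.Agent.Q26.IX.G

set_option autoImplicit false

/-! Iterates of the prime function. -/

namespace Pool.Agent.Q26.IX
open Finset Filter
open Pool.Agent.H373R2.T7 (Vz)

lemma nth_step (m : ℕ) : 2 * (m + 1) + 1 ≤ Nat.nth Nat.Prime (m + 1) := by
  induction m with
  | zero => rw [Nat.nth_prime_one_eq_three]
  | succ m ih =>
    have h1 : Nat.nth Nat.Prime (m + 1) < Nat.nth Nat.Prime (m + 1 + 1) :=
      Nat.nth_strictMono Nat.infinite_setOfPred_prime (Nat.lt_succ_self (m + 1))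
    have h2 := (Nat.prime_nth_prime (m + 1)).odd_of_ne_two (by omega)
    have h3 := (Nat.prime_nth_prime (m + 1 + 1)).odd_of_ne_two (by omega)
    obtain ⟨u, hu⟩ := h2
    obtain ⟨w, hw⟩ := h3
    omega

lemma pp_ge (x : ℕ) (hx : 1 ≤ x) : 2 * x - 1 ≤ pp x := by
  unfold pp
  by_cases h : x = 1
  · subst h
    rw [Nat.sub_self, Nat.nth_prime_zero_eq_two]; norm_num
  · obtain ⟨m, rfl⟩ : ∃ m, x = m + 2 := ⟨x - 2, by omega⟩
    have := nth_step m
    have e : m + 2 - 1 = m + 1 := by omega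
    rw [e]
    omega

lemma it_pos (n x : ℕ) (hx : 1 ≤ x) : 1 ≤ pp^[n] x := by
  induction n generalizing x with
  | zero => exact hx
  | succ n ih =>
    rw [Function.iterate_succ_apply]
    exact ih _ (pp_prime x).one_le

lemma it_inj (n x y : ℕ) (hx : 1 ≤ x) (hy : 1 ≤ y) (h : pp^[n] x = pp^[n] y) : x = y := by
  induction n generalizing x y with
  | zero => exact h
  | succ n ih =>
    rw [Function.iterate_succ_apply, Function.iterate_succ_apply] at h
    exact pp_inj hx hy (ih _ _ (pp_prime x).one_le (pp_prime y).one_le h)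

lemma it_grow (n x : ℕ) (hx : 2 ≤ x) : 2 ^ n + 1 ≤ pp^[n] x := by
  induction n with
  | zero => simpa using hx
  | succ n ih =>
    rw [Function.iterate_succ_apply']
    generalize pp^[n] x = u at ih ⊢
    have h1 := pp_ge u (le_trans (Nat.succ_pos _) ih)
    rw [pow_succ]
    generalize 2 ^ n = w at ih ⊢
    omega

lemma it_ge (a x : ℕ) : 2 ^ a + 1 ≤ pp^[a + 1] x := by
  rw [Function.iterate_succ_apply]
  exact it_grow a _ (pp_prime x).two_le

/-- the types which matter -/
lemma types_card (s : ℕ) : ∃ X₀ : ℕ, ∀ X : ℕ, X₀ ≤ X →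
    ((Fintype.piFinset fun _ : Fin s => range (Nat.log 2 X + 1)).card : ℝ) ≤ Real.log X ^ (2 * s) := by
  obtain ⟨n, hn⟩ := exists_nat_ge (Real.exp 3)
  refine ⟨n + 1, fun X hX => ?_⟩
  have hX0 : (0 : ℝ) < X := by exact_mod_cast (by omega : 0 < X)
  have hL : 3 ≤ Real.log X := by
    rw [Real.le_log_iff_exp_le hX0]
    refine hn.trans ?_
    exact_mod_cast (by omega : n ≤ X)
  rw [Fintype.card_piFinset, prod_const, card_univ, Fintype.card_fin, card_range, pow_mul]
  push_cast
  apply pow_le_pow_left₀ (by positivity)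
  have h1 : ((Nat.log 2 X : ℕ) : ℝ) * Real.log 2 ≤ Real.log X := by
    rw [← Real.log_pow]
    apply Real.log_le_log (by positivity)
    exact_mod_cast Nat.pow_log_le_self 2 (by omega)
  have h2 := Real.log_two_gt_d9
  have h3 : (0 : ℝ) ≤ ((Nat.log 2 X : ℕ) : ℝ) := Nat.cast_nonneg _
  nlinarith

end Pool.Agent.Q26.IX
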