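import Pool.Agent.Q26.IX.E
import Pool.Agent.Q26.IX.F

set_option autoImplicit false

/-! Structured sets: palindromes and automatic sets. -/

namespace Pool.Agent.Q26.IX
open Finset Filter
open Pool.Agent.H373R2.T7 (Vz)
open Pool.Agent.Q26.PD (OneZ HasZ)

/-- The palindromes with exactly `k` digits in base `b`. -/
def pal (b k : ℕ) : Finset ℕ :=
  (range (b ^ k)).filter fun v => b ^ (k - 1) ≤ v ∧ ∀ j < k, v / b ^ j % b = v / b ^ (k - 1 - j) % b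

open Classical in
/-- The integers `v < N` whose base `b` digits are accepted by the automaton `M`. -/
noncomputable def aut {n : ℕ} (b : ℕ) (M : DFA ℕ (Fin n)) (N : ℕ) : Finset ℕ :=
  (range N).filter fun v => Nat.digits b v ∈ M.accepts

/-- A kind of structured sets: palindromes in base `b`, or the integers whose base `b` digits are accepted by a finite
automaton `M`. -/
inductive Kind
  | pal (b : ℕ)
  | aut (b n : ℕ) (M : DFA ℕ (Fin n))

/-- The sets of a kind at the scale `X` (with the constant `B`): for palindromes in base `b ≥ 2` the set of all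
palindromes with exactly `k` digits, for every `k` with `X / B ≤ b ^ k ≤ B X`; for an automaton, which must not be
sparse (for every `k` the automatic set has more than `log ^ k N` elements below `N` for infinitely many `N`), the elements below
`X` of the automatic set. -/
def Kind.IsSet (B : ℕ) : Kind → ℕ → Finset ℕ → Prop
  | .pal b => fun X S => 2 ≤ b ∧ ∃ k : ℕ, X ≤ B * b ^ k ∧ b ^ k ≤ B * X ∧ S = IX.pal b k
  | .aut b _ M => fun X S => 2 ≤ b ∧ (∀ k : ℕ, ∃ᶠ N : ℕ in atTop, Real.log N ^ k < ((IX.aut b M N).card : ℝ)) ∧ S = IX.aut b M X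

lemma pal_eq (b k : ℕ) : IX.pal b k = Pool.Agent.TH872.Mir.Pals b k := by
  classical
  ext v
  unfold IX.pal Pool.Agent.TH872.Mir.Pals Pool.Agent.TH872.Mir.IsPal
  simp only [mem_filter, mem_range]
  tauto

lemma hasZ_mono {κ : ℤ} {Bv : ℕ} {𝒮 𝒮' : ℕ → Finset ℕ → Prop} (h : HasZ κ Bv 𝒮) (hle : ∀ X S, 𝒮' X S → 𝒮 X S) : HasZ κ Bv 𝒮' := by
  obtain ⟨C, hC, h⟩ := h
  refine ⟨C, hC, fun Q Bc U hQ => ?_⟩
  obtain ⟨B0, h⟩ := h Q Bc U hQ
  refine ⟨B0, fun E => ?_⟩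
  obtain ⟨X₀, h⟩ := h E
  exact ⟨X₀, fun X hX S hS => h X hX S (hle X S hS)⟩

lemma hasZ_false (κ : ℤ) (Bv : ℕ) {𝒮 : ℕ → Finset ℕ → Prop} (h : ∀ X S, ¬ 𝒮 X S) : HasZ κ Bv 𝒮 :=
  ⟨0, le_rfl, fun _ _ _ _ => ⟨0, fun _ => ⟨0, fun X _ S hS => absurd hS (h X S)⟩⟩⟩

theorem hasZ_kind (B : ℕ) (hB : 1 ≤ B) (κ : ℤ) (hκ : κ ≠ 0) (kd : Kind) : ∃ Bv : ℕ, HasZ κ Bv (kd.IsSet B) := by
  rcases kd with b | ⟨b, n, M⟩
  · by_cases hb : 2 ≤ b
    · refine ⟨3 * B, hasZ_mono (Pool.Agent.Q26.PD.palHasZ b hb κ hκ B hB) ?_⟩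
      rintro X S ⟨-, k, h1, h2, h3⟩
      exact ⟨k, h1, h2, h3.trans (pal_eq b k)⟩
    · exact ⟨0, hasZ_false _ _ fun X S h => hb h.1⟩
  · by_cases hb : 2 ≤ b ∧ ∀ k : ℕ, ∃ᶠ N : ℕ in atTop, Real.log N ^ k < ((IX.aut b M N).card : ℝ)
    · obtain ⟨Bv, h⟩ := Pool.Agent.Q26.PD.autZ b hb.1 M hb.2 κ hκ
      exact ⟨Bv, hasZ_mono h fun X S h => h.2.2⟩
    · exact ⟨0, hasZ_false _ _ fun X S h => hb ⟨h.1, h.2.1⟩⟩

open Classical in
/-- the main theorem for structured sets -/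
theorem ix_kinds (s : ℕ) (hs : 1 ≤ s) (κ : Fin s → ℤ) (hκ : ∀ i, κ i ≠ 0) (kd : Fin s → Kind) (B R A U : ℕ) (hB : 1 ≤ B) :
    ∃ B0 : ℕ, ∀ (E : ℕ) (ε : ℝ), 0 < ε → ∃ X₀ : ℕ, ∀ X, X₀ ≤ X → ∀ z : ℕ, Real.log X ^ B0 ≤ z → (z : ℝ) ≤ Real.log X ^ E →
      ∀ S : Fin s → Finset ℕ, (∀ i, (kd i).IsSet B X (S i)) → ∀ c : Fin s → ℤ, (∀ i, |c i| ≤ (B : ℤ) * X) →
      ∀ (J : Finset ℕ) (σ : Fin s → ℤ) (a : Fin s → ℕ → ℕ), (∀ i, σ i = 1 ∨ σ i = -1) →
      (∀ i, ∀ j ∈ J, 1 ≤ a i j ∧ a i j ≤ X) → (∀ i, Set.InjOn (a i) (J : Set ℕ)) →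
      (((Fintype.piFinset S).filter fun v => ¬ ∀ h : Fin s → ℤ,
         (∀ i, ((|h i - (c i + κ i * (v i : ℤ))| : ℤ) : ℝ) ≤ Real.log X ^ R) →
         |(prm J σ a h : ℝ) - rgh J z σ a h / (Vz z * Real.log X) ^ s| ≤
           ε * (rgh J z σ a h / (Vz z * Real.log X) ^ s) + X / Real.log X ^ A).card : ℝ) ≤
      ((Fintype.piFinset S).card : ℝ) / Real.log X ^ U := by
  choose Bv hBv using fun i => hasZ_kind B hB (κ i) (hκ i) (kd i)
  exact ix_main s hs κ Bv (fun i => (kd i).IsSet B) hBv B R A U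

/-- `p_k` (with `p_1 = 2`) -/
noncomputable def pp (k : ℕ) : ℕ := Nat.nth Nat.Prime (k - 1)

lemma pp_prime (k : ℕ) : (pp k).Prime := Nat.prime_nth_prime _

lemma pp_le {k l : ℕ} (h : k ≤ l) : pp k ≤ pp l := Nat.nth_monotone Nat.infinite_setOfPred_prime (by omega)

lemma pp_inj {k l : ℕ} (hk : 1 ≤ k) (hl : 1 ≤ l) (h : pp k = pp l) : k = l := by
  have := Nat.nth_injective Nat.infinite_setOfPred_prime h
  omega

lemma le_pp (k : ℕ) : k ≤ pp k := by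
  have : k - 1 ≤ Nat.nth Nat.Prime (k - 1) := Nat.le_nth (fun hf => absurd hf Nat.infinite_setOfPred_prime)
  by_cases h : k = 0
  · omega
  · have h1 : ∀ m, m + 1 ≤ Nat.nth Nat.Prime m := by
      intro m
      induction m with
      | zero => rw [Nat.nth_prime_zero_eq_two]; norm_num
      | succ m ih =>
        have := Nat.nth_strictMono Nat.infinite_setOfPred_prime (Nat.lt_succ_self m)
        have h2 : Nat.nth Nat.Prime m < Nat.nth Nat.Prime (m + 1) := this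
        omega
    have := h1 (k - 1)
    unfold pp
    omega

end Pool.Agent.Q26.IX
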